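import Pool.Agent.J4.H79.OR.TwoDim

/-!
# Graphs with two uniform sides and planar dominance between the sides
-/

set_option autoImplicit false
set_option linter.unusedSectionVars false

namespace Pool.Agent.J4.H79.OR

open Relation Finset

/-- The vertex set of `G` has two sides, `A` and its complement. Both are independent sets
(`κ = False`) or both are cliques (`κ = True`). Adjacency (`π = True`), or non-adjacency
(`π = False`), between `u ∈ A` and `v ∉ A` is the dominance of points of the plane. -/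
def TwoSided {V : Type} (G : SimpleGraph V) : Prop :=
  ∃ (A : Set V) (κ π : Prop) (x y : V → ℝ),
    (∀ u v, u ≠ v → (u ∈ A ↔ v ∈ A) → (G.Adj u v ↔ κ)) ∧
    (∀ u v, u ∈ A → v ∉ A → ((G.Adj u v ↔ π) ↔ (x u ≤ x v ∧ y u ≤ y v)))

/-! ### The quasi-order of a relation between two sides -/

section
variable {V : Type} (sd : V → Prop) (I : V → V → Prop)

/-- order on the lower side -/
def leA (u v : V) : Prop := ∀ w, I v w → I u w

/-- order on the upper side -/
def leB (u v : V) : Prop := ∀ w, I w u → I w v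

/-- the quasi-order -/
def qo (u v : V) : Prop :=
  (sd u ∧ sd v ∧ leA I u v) ∨ (sd u ∧ ¬ sd v ∧ I u v) ∨ (¬ sd u ∧ ¬ sd v ∧ leB I u v) ∨
    (¬ sd u ∧ sd v ∧ ∀ w, I w u → leA I w v)

/-- Planar dominance between the sides makes the quasi-order two-dimensional. -/
theorem qo_twoDim [Fintype V] (x y : V → ℝ)
    (hI : ∀ u v, I u v ↔ sd u ∧ ¬ sd v ∧ x u ≤ x v ∧ y u ≤ y v) :
    TwoDim V (leLab (qo sd I)) := by
  classical
  -- the normalised coordinates
  let lo : (V → ℝ) → V → WithTop ℝ := fun x u => (univ.filter fun w => I u w).inf fun w =>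
    ((x w : ℝ) : WithTop ℝ)
  let fx : (V → ℝ) → V → WithBot (WithTop ℝ) := fun x u =>
    if sd u then ((lo x u : WithTop ℝ) : WithBot (WithTop ℝ))
    else (univ.filter fun w => I w u).sup fun w => ((lo x w : WithTop ℝ) : WithBot (WithTop ℝ))
  -- basic facts
  have lo_mono : ∀ (z : V → ℝ) u v, leA I u v → lo z u ≤ lo z v := by
    intro z u v h
    refine Finset.le_inf fun w hw => Finset.inf_le ?_
    rw [mem_filter] at hw ⊢
    exact ⟨mem_univ _, h w hw.2⟩
  have lo_le : ∀ (z : V → ℝ) u w, I u w → lo z u ≤ ((z w : ℝ) : WithTop ℝ) := by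
    intro z u w h
    exact Finset.inf_le (by rw [mem_filter]; exact ⟨mem_univ _, h⟩)
  have le_lo : ∀ (z : V → ℝ), (∀ u w, I u w → z u ≤ z w) → ∀ u, ((z u : ℝ) : WithTop ℝ) ≤ lo z u := by
    intro z hz u
    refine Finset.le_inf fun w hw => ?_
    rw [mem_filter] at hw
    exact WithTop.coe_le_coe.2 (hz u w hw.2)
  have hzx : ∀ u w, I u w → x u ≤ x w := fun u w h => ((hI u w).1 h).2.2.1
  have hzy : ∀ u w, I u w → y u ≤ y w := fun u w h => ((hI u w).1 h).2.2.2
  have fa : ∀ (z : V → ℝ) u, sd u → fx z u = ((lo z u : WithTop ℝ) : WithBot (WithTop ℝ)) :=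
    fun z u h => if_pos h
  have fb : ∀ (z : V → ℝ) u, ¬ sd u → fx z u = (univ.filter fun w => I w u).sup fun w =>
    ((lo z w : WithTop ℝ) : WithBot (WithTop ℝ)) := fun z u h => if_neg h
  have hA : ∀ u v, sd u → ¬ sd v → (I u v ↔ fx x u ≤ fx x v ∧ fx y u ≤ fx y v) := by
    intro u v hu hv
    constructor
    · intro h
      rw [fa x u hu, fa y u hu, fb x v hv, fb y v hv]
      have hm : u ∈ univ.filter fun w => I w v := by rw [mem_filter]; exact ⟨mem_univ _, h⟩
      exact ⟨Finset.le_sup (f := fun w => ((lo x w : WithTop ℝ) : WithBot (WithTop ℝ))) hm,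
        Finset.le_sup (f := fun w => ((lo y w : WithTop ℝ) : WithBot (WithTop ℝ))) hm⟩
    · intro h
      by_contra hc
      -- one coordinate of `u` is larger
      have key : ∀ z : V → ℝ, (∀ u w, I u w → z u ≤ z w) → fx z u ≤ fx z v → z u ≤ z v := by
        intro z hz hle
        rw [fa z u hu, fb z v hv] at hle
        by_contra hlt
        rw [not_le] at hlt
        have h1 : ((z u : ℝ) : WithTop ℝ) ≤ lo z u := le_lo z hz u
        have h2 : (univ.filter fun w => I w v).sup (fun w =>
            ((lo z w : WithTop ℝ) : WithBot (WithTop ℝ))) ≤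
            (((z v : ℝ) : WithTop ℝ) : WithBot (WithTop ℝ)) := by
          refine Finset.sup_le fun w hw => ?_
          rw [mem_filter] at hw
          exact WithBot.coe_le_coe.2 (lo_le z w v hw.2)
        have h3 := hle.trans h2
        have h4 : lo z u ≤ ((z v : ℝ) : WithTop ℝ) := WithBot.coe_le_coe.1 h3
        have h5 := WithTop.coe_le_coe.1 (h1.trans h4)
        exact absurd h5 (not_le.2 hlt)
      exact hc ((hI u v).2 ⟨hu, hv, key x hzx h.1, key y hzy h.2⟩)
  have hAA : ∀ u v, sd u → sd v → (leA I u v ↔ fx x u ≤ fx x v ∧ fx y u ≤ fx y v) := by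
    intro u v hu hv
    rw [fa x u hu, fa y u hu, fa x v hv, fa y v hv, WithBot.coe_le_coe, WithBot.coe_le_coe]
    constructor
    · intro h
      exact ⟨lo_mono x u v h, lo_mono y u v h⟩
    · rintro ⟨h1, h2⟩ w hw
      rw [hI]
      have hw' := (hI v w).1 hw
      refine ⟨hu, hw'.2.1, ?_, ?_⟩
      · exact WithTop.coe_le_coe.1 ((le_lo x hzx u).trans (h1.trans (lo_le x v w hw)))
      · exact WithTop.coe_le_coe.1 ((le_lo y hzy u).trans (h2.trans (lo_le y v w hw)))
  have hBB : ∀ u v, ¬ sd u → ¬ sd v → (leB I u v ↔ fx x u ≤ fx x v ∧ fx y u ≤ fx y v) := by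
    intro u v hu hv
    constructor
    · intro h
      rw [fb x u hu, fb y u hu, fb x v hv, fb y v hv]
      have hsub : (univ.filter fun w => I w u) ⊆ univ.filter fun w => I w v := by
        intro w hw
        rw [mem_filter] at hw ⊢
        exact ⟨hw.1, h w hw.2⟩
      exact ⟨Finset.sup_mono hsub, Finset.sup_mono hsub⟩
    · rintro ⟨h1, h2⟩ w hw
      have hw' := (hI w u).1 hw
      have h3 := (hA w u hw'.1 hu).1 hw
      exact (hA w v hw'.1 hv).2 ⟨h3.1.trans h1, h3.2.trans h2⟩
  have hBA : ∀ u v, ¬ sd u → sd v →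
      ((∀ w, I w u → leA I w v) ↔ fx x u ≤ fx x v ∧ fx y u ≤ fx y v) := by
    intro u v hu hv
    constructor
    · intro h
      have key : ∀ z : V → ℝ, (∀ w, sd w → leA I w v → fx z w ≤ fx z v) → fx z u ≤ fx z v := by
        intro z hz
        rw [fb z u hu]
        refine Finset.sup_le fun w hw => ?_
        rw [mem_filter] at hw
        have hw' := (hI w u).1 hw.2
        rw [← fa z w hw'.1]
        exact hz w hw'.1 (h w hw.2)
      exact ⟨key x fun w hw h' => ((hAA w v hw hv).1 h').1,
        key y fun w hw h' => ((hAA w v hw hv).1 h').2⟩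
    · rintro ⟨h1, h2⟩ w hw
      have hw' := (hI w u).1 hw
      have h3 := (hA w u hw'.1 hu).1 hw
      exact (hAA w v hw'.1 hv).2 ⟨h3.1.trans h1, h3.2.trans h2⟩
  have hqo : ∀ u v, qo sd I u v ↔ fx x u ≤ fx x v ∧ fx y u ≤ fx y v := by
    intro u v
    by_cases hu : sd u <;> by_cases hv : sd v
    · rw [← hAA u v hu hv]
      simp only [qo, hu, hv, true_and, not_true_eq_false, false_and, or_false]
    · rw [← hA u v hu hv]
      simp only [qo, hu, hv, true_and, not_true_eq_false, false_and, or_false, false_or,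
        not_false_eq_true]
    · rw [← hBA u v hu hv]
      simp only [qo, hu, hv, true_and, not_true_eq_false, false_and, false_or, and_false,
        not_false_eq_true]
    · rw [← hBB u v hu hv]
      simp only [qo, hu, hv, true_and, false_and, or_false, false_or, not_false_eq_true]
  refine ⟨WithBot (WithTop ℝ), inferInstance, fx x, fx y, fun u v => ?_⟩
  exact Prod.ext (propext (hqo u v)) (propext (hqo v u))

end

end Pool.Agent.J4.H79.OR
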