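import Pool.Agent.J4.H79.OR.Bip

/-!
# Two-sided graphs: the connected case and the general case
-/

set_option autoImplicit false
set_option linter.unusedSectionVars false

namespace Pool.Agent.J4.H79.OR

open Relation Finset

section
variable {V : Bool → Type} [∀ i, Fintype (V i)] {K : Type} {c : ∀ i, V i → V i → K}
  {adj : ∀ i, V i → V i → Prop}

/-- different points whose adjacency is not `κ` -/
def NK {V : Type} (adj : V → V → Prop) (κ : Prop) (x y : V) : Prop := x ≠ y ∧ ¬ (adj x y ↔ κ)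

/-- two steps -/
def N2 {V : Type} (adj : V → V → Prop) (κ : Prop) (x y : V) : Prop :=
  ∃ z, NK adj κ x z ∧ NK adj κ z y

theorem NK_inv (hS : St V c) (hL : Lab c adj id) (κ : Prop) {i j : Bool} {x y : V i} {x' y' : V j}
    (h : c i x y = c j x' y') (hA : NK (adj i) κ x y) : NK (adj j) κ x' y' :=
  ⟨fun he => hA.1 ((hS.eq_iff h).2 he), fun he => hA.2 ((iff_of_eq (hL.inv h)).trans he)⟩

theorem N2_inv (hS : St V c) (hL : Lab c adj id) (κ : Prop) {i j : Bool} {x y : V i} {x' y' : V j}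
    (h : c i x y = c j x' y') (hA : N2 (adj i) κ x y) : N2 (adj j) κ x' y' := by
  obtain ⟨β, hβ⟩ := hS.step h
  obtain ⟨z, h1, h2⟩ := hA
  exact ⟨β z, NK_inv hS hL κ (hβ z).1 h1, NK_inv hS hL κ (hβ z).2 h2⟩

/-- the relation of lying on the same side -/
def SS {V : Type} (adj : V → V → Prop) (κ : Prop) (x y : V) : Prop := ReflTransGen (N2 adj κ) x y

theorem SS_inv (hS : St V c) (hL : Lab c adj id) (κ : Prop) {i j : Bool} {x y : V i} {x' y' : V j}
    (h : c i x y = c j x' y') : SS (adj i) κ x y ↔ SS (adj j) κ x' y' :=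
  ⟨fun h' => hS.closure (fun i => N2 (adj i) κ) (N2_inv hS hL κ) h h',
    fun h' => hS.closure (fun i => N2 (adj i) κ) (N2_inv hS hL κ) h.symm h'⟩

/-- in a connected two-sided structure the relation `SS` describes the sides -/
theorem SS_iff {V : Type} {adj : V → V → Prop} {κ : Prop} {A : Set V}
    (hA : ∀ u v, u ≠ v → (u ∈ A ↔ v ∈ A) → (adj u v ↔ κ))
    (hconn : ∀ x y, ReflTransGen (NK adj κ) x y) (x y : V) : SS adj κ x y ↔ (x ∈ A ↔ y ∈ A) := by
  have hd : ∀ u v, NK adj κ u v → ¬ (u ∈ A ↔ v ∈ A) := fun u v h h' => h.2 (hA u v h.1 h')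
  constructor
  · intro h
    induction h with
    | refl => exact Iff.rfl
    | tail _ h2 ih =>
      obtain ⟨z, h3, h4⟩ := h2
      have h5 := hd _ _ h3
      have h6 := hd _ _ h4
      tauto
  · have key : ((x ∈ A ↔ y ∈ A) → SS adj κ x y) ∧
        (¬ (x ∈ A ↔ y ∈ A) → ∃ z, SS adj κ x z ∧ NK adj κ z y) := by
      have hr := hconn x y
      induction hr with
      | refl => exact ⟨fun _ => ReflTransGen.refl, fun h => absurd Iff.rfl h⟩
      | @tail a b _ h2 ih =>
        have h5 := hd _ _ h2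
        constructor
        · intro h
          obtain ⟨z, h6, h7⟩ := ih.2 (by tauto)
          exact h6.tail ⟨_, h7, h2⟩
        · intro h
          exact ⟨_, ih.1 (by tauto), h2⟩
    exact key.1

/-! ### Propositional facts -/

theorem pr1 (a b : Prop) : ((a ↔ b) ↔ a) ↔ b := by tauto
theorem pr2 {a b c : Prop} (h : (a ↔ b) ↔ (a ↔ c)) : b ↔ c := by tauto
theorem pr3 {a b c : Prop} (h : b ↔ c) : (a ↔ b) ↔ (a ↔ c) := by tauto
theorem pr4 {a b c : Prop} (h : b ↔ c) : (b ↔ a) ↔ (c ↔ a) := by tauto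
theorem pr5 {a b c : Prop} (h : (b ↔ a) ↔ (c ↔ a)) : b ↔ c := by tauto
theorem pr6 {a b c d : Prop} (h : (a ↔ b) ↔ (c ↔ d)) (h' : a ↔ c) : b ↔ d := by tauto
theorem pr7 {a b c : Prop} (h : (a ↔ c) ↔ (b ↔ c)) : a ↔ b := by tauto
theorem pr8 {a b : Prop} (h : ¬ (a ↔ b)) (ha : a) : ¬ b := by tauto
theorem pr9 {a b : Prop} (h : ¬ (a ↔ b)) (ha : ¬ a) : b := by tauto

/-- The sides of both structures. -/
theorem exists_sides (hS : St V c) (hL : Lab c adj id) {A : Set (V false)} {κ : Prop}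
    (hSS : ∀ u v, SS (adj false) κ u v ↔ (u ∈ A ↔ v ∈ A))
    (hlink : ∃ x x', c false x x = c true x' x') :
    ∃ sd : ∀ i, V i → Prop, (∀ z, sd false z ↔ z ∈ A) ∧
      (∀ i u v, SS (adj i) κ u v ↔ (sd i u ↔ sd i v)) ∧
      (∃ x x', c false x x = c true x' x' ∧ (sd false x ↔ sd true x')) ∧
      ∀ a b : V true, ∃ x y : V false, c false x y = c true a b := by
  obtain ⟨x0, x0', hx0⟩ := hlink
  obtain ⟨β0, hβ0⟩ := hS.row hx0
  have hpair : ∀ a b : V true, ∃ x y : V false, c false x y = c true a b := by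
    intro a b
    obtain ⟨x, rfl⟩ := β0.surjective a
    obtain ⟨γ, hγ⟩ := hS.row (hS.right (hβ0 x))
    exact ⟨x, γ.symm b, by rw [hγ, γ.apply_symm_apply]⟩
  let b : ∀ i, V i := fun i => match i with
    | false => x0
    | true => x0'
  have htri : ∀ i (u v w : V i), SS (adj i) κ v w ↔ (SS (adj i) κ u v ↔ SS (adj i) κ u w) := by
    intro i
    match i with
    | false =>
      intro u v w
      rw [hSS, hSS, hSS]
      exact ⟨fun h => pr3 h, fun h => pr2 h⟩
    | true =>
      intro u v w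
      obtain ⟨u1, w1, h1⟩ := hpair u w
      obtain ⟨β, hβ⟩ := hS.step h1
      obtain ⟨v1, rfl⟩ := β.surjective v
      rw [← SS_inv hS hL κ (hβ v1).1, ← SS_inv hS hL κ (hβ v1).2, ← SS_inv hS hL κ h1, hSS, hSS,
        hSS]
      exact ⟨fun h => pr3 h, fun h => pr2 h⟩
  refine ⟨fun i z => (SS (adj i) κ (b i) z ↔ x0 ∈ A), ?_, ?_, ?_, hpair⟩
  · intro z
    show (SS (adj false) κ x0 z ↔ x0 ∈ A) ↔ z ∈ A
    rw [hSS]
    exact pr1 _ _
  · intro i u v
    rw [htri i (b i) u v]
    exact ⟨fun h => pr4 h, fun h => pr5 h⟩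
  · refine ⟨x0, x0', hx0, ?_⟩
    show (SS (adj false) κ x0 x0 ↔ x0 ∈ A) ↔ (SS (adj true) κ x0' x0' ↔ x0 ∈ A)
    have h1 : SS (adj false) κ x0 x0 := ReflTransGen.refl
    have h2 : SS (adj true) κ x0' x0' := ReflTransGen.refl
    exact pr4 ⟨fun _ => h2, fun _ => h1⟩

/-- Refinement of a stable colouring by the sides. -/
theorem st_refine (hS : St V c) (sd : ∀ i, V i → Prop)
    (hsd : ∀ {i j : Bool} {u v : V i} {u' v' : V j}, c i u v = c j u' v' →
      ((sd i u ↔ sd i v) ↔ (sd j u' ↔ sd j v'))) :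
    St V (fun i u v => (c i u v, sd i u)) := by
  refine ⟨fun h => hS.eq_iff (congrArg Prod.fst h), ?_⟩
  intro i j u v u' v' h
  have h1 : c i u v = c j u' v' := congrArg Prod.fst h
  have h2 : sd i u = sd j u' := congrArg Prod.snd h
  obtain ⟨β, hβ⟩ := hS.step h1
  refine ⟨β, fun z => ⟨Prod.ext (hβ z).1 h2, Prod.ext (hβ z).2 (propext ?_)⟩⟩
  exact pr6 (hsd (hβ z).1) (iff_of_eq h2)

/-- Invariance of the quasi-order. -/
theorem qo_inv {K' : Type} {c' : ∀ i, V i → V i → K'} (hS' : St V c') {sd : ∀ i, V i → Prop}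
    {I : ∀ i, V i → V i → Prop}
    (hsd : ∀ {i j : Bool} {u v : V i} {u' v' : V j}, c' i u v = c' j u' v' →
      (sd i u ↔ sd j u'))
    (hI : ∀ {i j : Bool} {u v : V i} {u' v' : V j}, c' i u v = c' j u' v' →
      (I i u v ↔ I j u' v') ∧ (I i v u ↔ I j v' u'))
    {i j : Bool} {u v : V i} {u' v' : V j} (h : c' i u v = c' j u' v') :
    (qo (sd i) (I i) u v ↔ qo (sd j) (I j) u' v') ∧
      (qo (sd i) (I i) v u ↔ qo (sd j) (I j) v' u') := by
  have hstepI : ∀ {i j : Bool} {u v : V i} {u' v' : V j}, c' i u v = c' j u' v' →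
      ∃ β : V i ≃ V j, ∀ z, ((I i u z ↔ I j u' (β z)) ∧ (I i z u ↔ I j (β z) u') ∧
        (I i v z ↔ I j v' (β z)) ∧ (I i z v ↔ I j (β z) v')) ∧
        c' i u z = c' j u' (β z) ∧ c' i z v = c' j (β z) v' := by
    intro i j u v u' v' h
    obtain ⟨β, hβ⟩ := hS'.step h
    exact ⟨β, fun z => ⟨⟨(hI (hβ z).1).1, (hI (hβ z).1).2, (hI (hβ z).2).2,
      (hI (hβ z).2).1⟩, hβ z⟩⟩
  have hleA : ∀ {i j : Bool} {u v : V i} {u' v' : V j}, c' i u v = c' j u' v' →
      (leA (I i) u v ↔ leA (I j) u' v') ∧ (leA (I i) v u ↔ leA (I j) v' u') := by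
    intro i j u v u' v' h
    obtain ⟨β, hβ⟩ := hstepI h
    constructor
    · constructor
      · intro h1 w' hw'
        obtain ⟨w, rfl⟩ := β.surjective w'
        obtain ⟨⟨a1, a2, a3, a4⟩, -⟩ := hβ w
        exact a1.1 (h1 w (a3.2 hw'))
      · intro h1 w hw
        obtain ⟨⟨a1, a2, a3, a4⟩, -⟩ := hβ w
        exact a1.2 (h1 (β w) (a3.1 hw))
    · constructor
      · intro h1 w' hw'
        obtain ⟨w, rfl⟩ := β.surjective w'
        obtain ⟨⟨a1, a2, a3, a4⟩, -⟩ := hβ w
        exact a3.1 (h1 w (a1.2 hw'))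
      · intro h1 w hw
        obtain ⟨⟨a1, a2, a3, a4⟩, -⟩ := hβ w
        exact a3.2 (h1 (β w) (a1.1 hw))
  have hleB : ∀ {i j : Bool} {u v : V i} {u' v' : V j}, c' i u v = c' j u' v' →
      (leB (I i) u v ↔ leB (I j) u' v') ∧ (leB (I i) v u ↔ leB (I j) v' u') := by
    intro i j u v u' v' h
    obtain ⟨β, hβ⟩ := hstepI h
    constructor
    · constructor
      · intro h1 w' hw'
        obtain ⟨w, rfl⟩ := β.surjective w'
        obtain ⟨⟨a1, a2, a3, a4⟩, -⟩ := hβ w
        exact a4.1 (h1 w (a2.2 hw'))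
      · intro h1 w hw
        obtain ⟨⟨a1, a2, a3, a4⟩, -⟩ := hβ w
        exact a4.2 (h1 (β w) (a2.1 hw))
    · constructor
      · intro h1 w' hw'
        obtain ⟨w, rfl⟩ := β.surjective w'
        obtain ⟨⟨a1, a2, a3, a4⟩, -⟩ := hβ w
        exact a2.1 (h1 w (a4.2 hw'))
      · intro h1 w hw
        obtain ⟨⟨a1, a2, a3, a4⟩, -⟩ := hβ w
        exact a2.2 (h1 (β w) (a4.1 hw))
  have hleBA : ∀ {i j : Bool} {u v : V i} {u' v' : V j}, c' i u v = c' j u' v' →
      ((∀ w, I i w u → leA (I i) w v) ↔ (∀ w, I j w u' → leA (I j) w v')) ∧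
      ((∀ w, I i w v → leA (I i) w u) ↔ (∀ w, I j w v' → leA (I j) w u')) := by
    intro i j u v u' v' h
    obtain ⟨β, hβ⟩ := hstepI h
    constructor
    · constructor
      · intro h1 w' hw'
        obtain ⟨w, rfl⟩ := β.surjective w'
        obtain ⟨⟨a1, a2, a3, a4⟩, b1, b2⟩ := hβ w
        exact (hleA b2).1.1 (h1 w (a2.2 hw'))
      · intro h1 w hw
        obtain ⟨⟨a1, a2, a3, a4⟩, b1, b2⟩ := hβ w
        exact (hleA b2).1.2 (h1 (β w) (a2.1 hw))
    · constructor
      · intro h1 w' hw'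
        obtain ⟨w, rfl⟩ := β.surjective w'
        obtain ⟨⟨a1, a2, a3, a4⟩, b1, b2⟩ := hβ w
        exact (hleA b1).2.1 (h1 w (a4.2 hw'))
      · intro h1 w hw
        obtain ⟨⟨a1, a2, a3, a4⟩, b1, b2⟩ := hβ w
        exact (hleA b1).2.2 (h1 (β w) (a4.1 hw))
  have h1 := hsd h
  have h2 : sd i v ↔ sd j v' := hsd (hS'.right h)
  have e1 := hleA h
  have e2 := hleB h
  have e3 := hleBA h
  have e4 := hI h
  unfold qo
  rw [h1, h2, e1.1, e2.1, e3.1, e4.1, e1.2, e2.2, e3.2, e4.2]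
  exact ⟨Iff.rfl, Iff.rfl⟩

theorem qo_cross {V : Type} {sd : V → Prop} {I : V → V → Prop} {u v : V} (hu : sd u)
    (hv : ¬ sd v) : qo sd I u v ↔ I u v := by
  simp only [qo, hu, hv, true_and, not_true_eq_false, false_and, or_false, false_or,
    not_false_eq_true]

/-- **The connected case.** -/
theorem isom_conn (hS : St V c) (hL : Lab c adj id) {A : Set (V false)} {κ π : Prop}
    {x y : V false → ℝ} (hA : ∀ u v, u ≠ v → (u ∈ A ↔ v ∈ A) → (adj false u v ↔ κ))
    (hdom : ∀ u v, u ∈ A → v ∉ A → ((adj false u v ↔ π) ↔ (x u ≤ x v ∧ y u ≤ y v)))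
    (hconn : ∀ u v, ReflTransGen (NK (adj false) κ) u v)
    (hlink : ∃ x x', c false x x = c true x' x') : Isom c adj := by
  have hSy : ∀ i (u v : V i), adj i v u = adj i u v := fun i u v => hL.swap i u v
  have hSS : ∀ u v, SS (adj false) κ u v ↔ (u ∈ A ↔ v ∈ A) := SS_iff hA hconn
  obtain ⟨sd, hsd0, hsdSS, ⟨x0, x0', hx0, hx0s⟩, hpair⟩ := exists_sides hS hL hSS hlink
  -- the refined colouring
  have hS' : St V (fun i u v => (c i u v, sd i u)) := by
    refine st_refine hS sd fun h => ?_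
    rw [← hsdSS, ← hsdSS]
    exact SS_inv hS hL κ h
  have hlink' : (fun i u v => (c i u v, sd i u) : ∀ i, V i → V i → K × Prop) false x0 x0 =
      (fun i u v => (c i u v, sd i u) : ∀ i, V i → V i → K × Prop) true x0' x0' :=
    Prod.ext hx0 (propext hx0s)
  have hc2 : ∀ {i j : Bool} {u v : V i} {u' v' : V j}, (c i u v, sd i u) = (c j u' v', sd j u') →
      (sd i u ↔ sd j u') := fun h => iff_of_eq (congrArg Prod.snd h)
  -- the relation between the sides
  have hI1 : ∀ {i j : Bool} {u v : V i} {u' v' : V j},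
      (c i u v, sd i u) = (c j u' v', sd j u') →
      ((sd i u ∧ ¬ sd i v ∧ (adj i u v ↔ π)) ↔ (sd j u' ∧ ¬ sd j v' ∧ (adj j u' v' ↔ π))) ∧
      ((sd i v ∧ ¬ sd i u ∧ (adj i v u ↔ π)) ↔ (sd j v' ∧ ¬ sd j u' ∧ (adj j v' u' ↔ π))) := by
    intro i j u v u' v' h
    have h0 : c i u v = c j u' v' := congrArg Prod.fst h
    have h1 := hc2 h
    have h2 : sd i v ↔ sd j v' := hc2 (hS'.right h)
    have h3 : adj i u v ↔ adj j u' v' := iff_of_eq (hL.inv h0)
    rw [hSy i u v, hSy j u' v', h1, h2, h3]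
    exact ⟨Iff.rfl, Iff.rfl⟩
  have hLq : Lab (fun i u v => (c i u v, sd i u))
      (fun i => leLab (qo (sd i) (fun u v => sd i u ∧ ¬ sd i v ∧ (adj i u v ↔ π)))) Prod.swap := by
    refine ⟨fun h => ?_, fun i u v => rfl⟩
    have h1 := qo_inv (c' := fun i u v => (c i u v, sd i u)) hS' (sd := sd)
      (I := fun i u v => sd i u ∧ ¬ sd i v ∧ (adj i u v ↔ π)) hc2 hI1 h
    exact Prod.ext (propext h1.1) (propext h1.2)
  have hdim : TwoDim (V false)
      (leLab (qo (sd false) (fun u v => sd false u ∧ ¬ sd false v ∧ (adj false u v ↔ π)))) := by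
    refine qo_twoDim (sd false) _ x y fun u v => ?_
    refine and_congr_right fun hu => and_congr_right fun hv => ?_
    rw [hsd0] at hu hv
    exact hdom u v hu hv
  obtain ⟨φ, hφ1, hφ2⟩ := isom_of_twoDim hS' hLq hdim ⟨x0, x0', hlink'⟩
  -- uniformity of the sides
  have hunif : ∀ i (u v : V i), u ≠ v → (sd i u ↔ sd i v) → (adj i u v ↔ κ) := by
    intro i
    match i with
    | false =>
      intro u v h1 h2
      rw [hsd0, hsd0] at h2
      exact hA u v h1 h2
    | true =>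
      intro u v h1 h2
      obtain ⟨u1, v1, h3⟩ := hpair u v
      have h4 := SS_inv hS hL κ h3
      rw [hsdSS true u v, hSS] at h4
      rw [← iff_of_eq (hL.inv h3)]
      exact hA u1 v1 (fun h => h1 ((hS.eq_iff h3).1 h)) (h4.2 h2)
  have hsdφ : ∀ u, sd false u ↔ sd true (φ u) := fun u => hc2 (hφ2 u)
  have hcφ : ∀ u, c false u u = c true (φ u) (φ u) := fun u => congrArg Prod.fst (hφ2 u)
  have key : ∀ u v, sd false u → ¬ sd false v → (adj false u v ↔ adj true (φ u) (φ v)) := by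
    intro u v hu hv
    have hu' := (hsdφ u).1 hu
    have hv' : ¬ sd true (φ v) := fun h => hv ((hsdφ v).2 h)
    have h1 := iff_of_eq (congrArg Prod.fst (hφ1 u v))
    have h2 : (sd false u ∧ ¬ sd false v ∧ (adj false u v ↔ π)) ↔
        (sd true (φ u) ∧ ¬ sd true (φ v) ∧ (adj true (φ u) (φ v) ↔ π)) :=
      (qo_cross (I := fun u v => sd false u ∧ ¬ sd false v ∧ (adj false u v ↔ π)) hu hv).symm.trans
        (h1.trans (qo_cross (I := fun u v => sd true u ∧ ¬ sd true v ∧ (adj true u v ↔ π))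
          hu' hv'))
    have h3 : (adj false u v ↔ π) ↔ (adj true (φ u) (φ v) ↔ π) :=
      ⟨fun h => (h2.1 ⟨hu, hv, h⟩).2.2, fun h => (h2.2 ⟨hu', hv', h⟩).2.2⟩
    exact pr7 h3
  refine ⟨φ, fun u v => propext ?_, hcφ⟩
  by_cases huv : u = v
  · subst huv
    exact iff_of_eq (hL.inv (hcφ u))
  by_cases hs : sd false u ↔ sd false v
  · rw [hunif false u v huv hs, hunif true (φ u) (φ v) (fun h => huv (φ.injective h))]
    rw [← hsdφ, ← hsdφ]
    exact hs
  · by_cases hu : sd false u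
    · exact key u v hu (pr8 hs hu)
    · rw [hSy false v u, hSy true (φ v) (φ u)]
      exact key v u (pr9 hs hu) hu

/-- **The general case.** -/
theorem isom_twoSided (hS : St V c) (hL : Lab c adj id) {A : Set (V false)} {κ π : Prop}
    {x y : V false → ℝ} (hA : ∀ u v, u ≠ v → (u ∈ A ↔ v ∈ A) → (adj false u v ↔ κ))
    (hdom : ∀ u v, u ∈ A → v ∉ A → ((adj false u v ↔ π) ↔ (x u ≤ x v ∧ y u ≤ y v)))
    (hlink : ∃ x x', c false x x = c true x' x') : Isom c adj := by
  classical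
  -- the components
  have hNs : ∀ i (u v : V i), NK (adj i) κ u v → NK (adj i) κ v u := by
    intro i u v h
    refine ⟨h.1.symm, ?_⟩
    have : adj i v u = adj i u v := hL.swap i u v
    rw [this]
    exact h.2
  let E : ∀ i, Setoid (V i) := fun i =>
    { r := ReflTransGen (NK (adj i) κ)
      iseqv := by
        refine ⟨fun _ => ReflTransGen.refl, fun h => ?_, fun h h' => h.trans h'⟩
        induction h with
        | refl => exact ReflTransGen.refl
        | tail _ h2 ih => exact ReflTransGen.head (hNs i _ _ h2) ih }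
  have hE : InvE c E := ⟨fun h =>
    ⟨fun h' => hS.closure (fun i => NK (adj i) κ) (NK_inv hS hL κ) h h',
      fun h' => hS.closure (fun i => NK (adj i) κ) (NK_inv hS hL κ) h.symm h'⟩⟩
  refine uniform hS hE hlink κ ?_ ?_
  · intro i u v h
    have hne : u ≠ v := by
      rintro rfl
      exact h ReflTransGen.refl
    by_contra hc
    exact h (ReflTransGen.single ⟨hne, fun h' => hc (propext h')⟩)
  · intro x1 x1' hxx
    let p : ∀ i, V i := fun i => match i with
      | false => x1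
      | true => x1'
    have hst : St (fun i => ↥({z | (E i).r (p i) z} : Set (V i))) (fun i x y => c i x.1 y.1) := by
      refine hS.restrict (fun i => {z | (E i).r (p i) z}) ?_
      intro i j a d a' d' had ha ha'
      constructor
      · intro hd
        exact (E j).trans ha' ((hE.iff had).1 ((E i).trans ((E i).symm ha) hd))
      · intro hd
        exact (E i).trans ha ((hE.iff had).2 ((E j).trans ((E j).symm ha') hd))
    -- connectedness of the component
    have key : ∀ v, ReflTransGen (NK (adj false) κ) x1 v → ∀ hv : (E false).r x1 v,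
        ReflTransGen (NK (fun (u v : ↥({z | (E false).r x1 z} : Set (V false))) =>
          adj false u.1 v.1) κ) ⟨x1, ReflTransGen.refl⟩ ⟨v, hv⟩ := by
      intro v hv
      induction hv with
      | refl => intro _; exact ReflTransGen.refl
      | @tail a b h3 h4 ih =>
        intro hb
        exact (ih h3).tail ⟨fun he => h4.1 (congrArg Subtype.val he), h4.2⟩
    have hsy : ∀ u v, ReflTransGen (NK (fun (u v : ↥({z | (E false).r x1 z} : Set (V false))) =>
          adj false u.1 v.1) κ) u v → ReflTransGen (NK (fun (u v : ↥({z | (E false).r x1 z} :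
          Set (V false))) => adj false u.1 v.1) κ) v u := by
      intro u v h
      induction h with
      | refl => exact ReflTransGen.refl
      | tail _ h2 ih =>
        refine ReflTransGen.head ⟨h2.1.symm, ?_⟩ ih
        exact (hNs false _ _ ⟨fun he => h2.1 (Subtype.ext he), h2.2⟩).2
    have hcon : ∀ u v, ReflTransGen (NK (fun (u v : ↥({z | (E false).r x1 z} : Set (V false))) =>
        adj false u.1 v.1) κ) u v :=
      fun u v => (hsy _ _ (key u.1 u.2 u.2)).trans (key v.1 v.2 v.2)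
    obtain ⟨φ, h1, h2⟩ := isom_conn (V := fun i => ↥({z | (E i).r (p i) z} : Set (V i)))
      (c := fun i x y => c i x.1 y.1) (adj := fun i x y => adj i x.1 y.1)
      (A := {z | z.1 ∈ A}) (κ := κ) (π := π) (x := fun z => x z.1) (y := fun z => y z.1)
      hst ⟨fun h => hL.inv h, fun i x y => hL.swap i x.1 y.1⟩
      (fun u v h h' => hA u.1 v.1 (fun he => h (Subtype.ext he)) h')
      (fun u v h h' => hdom u.1 v.1 h h') hcon
      ⟨⟨x1, ReflTransGen.refl⟩, ⟨x1', ReflTransGen.refl⟩, hxx⟩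
    exact ⟨φ, h1, h2⟩

end

end Pool.Agent.J4.H79.OR
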