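import Pool.Agent.J4.H79.OR.Conn
import Pool.Agent.J4.H79.PG.Final
import Pool.Agent.J4.H79.GI.BallGeom

/-!
# Two-sided graphs and the Weisfeiler-Leman method
-/

set_option autoImplicit false
set_option linter.unusedSectionVars false

namespace Pool.Agent.J4.H79.OR

open Finset Pool.Agent.W185.SRG Pool.Agent.J4.H79.PG Pool.Agent.J4.H79.GI

section
variable {V W : Type} [Fintype V] [Fintype W] {G : SimpleGraph V} {H : SimpleGraph W}

/-- Two-sided graphs are identified by the two-dimensional method. -/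
theorem main (k : ℕ) (hk : 2 ≤ k) (hG : TwoSided G) : WLEquivalent k G H ↔ Nonempty (G ≃g H) := by
  constructor
  · intro h
    rcases isEmpty_or_nonempty V with hV | ⟨⟨x⟩⟩
    · obtain ⟨ψ, -⟩ := h
      have hW : IsEmpty W := by
        refine ⟨fun w => ?_⟩
        exact hV.false ((ψ.symm fun _ => w) ⟨0, by omega⟩)
      exact ⟨⟨Equiv.equivOfIsEmpty V W, fun {a} => (hV.false a).elim⟩⟩
    · have hS := stable_wl G H hk
      obtain ⟨x', hx'⟩ := linked h x hk
      obtain ⟨A, κ, π, f, g, h1, h2⟩ := hG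
      obtain ⟨φ, h3, -⟩ := isom_twoSided (V := fam V W) (c := fun i => pcol (famG G H i) k)
        (adj := fun i => (famG G H i).Adj) ⟨hS.eq_iff, hS.step⟩
        ⟨fun h => propext (hS.adj_iff h), fun i x y => propext ((famG G H i).adj_comm y x)⟩
        (A := A) (κ := κ) (π := π) (x := f) (y := g) h1 h2 ⟨x, x', hx'⟩
      exact ⟨⟨φ, fun {a b} => (iff_of_eq (h3 a b)).symm⟩⟩
  · rintro ⟨φ⟩
    exact wlEquivalent_of_iso φ k

/-- one coordinate -/
theorem coord {V : Type} (s : Set V) (h : V → ℝ) (h1 : ∀ u ∈ s, ∀ v ∈ s, |h u - h v| ≤ 2)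
    (h2 : ∀ u, u ∉ s → ∀ v, v ∉ s → |h u - h v| ≤ 2) :
    ∃ x : V → ℝ, ∀ u v, u ∈ s → v ∉ s → (|h u - h v| ≤ 2 ↔ x u ≤ x v) := by
  classical
  by_cases hc : ∀ u v, u ∈ s → v ∉ s → h v - h u ≤ 2
  · refine ⟨fun u => if u ∈ s then h u else h u + 2, fun u v hu hv => ?_⟩
    show _ ↔ (if u ∈ s then h u else h u + 2) ≤ (if v ∈ s then h v else h v + 2)
    rw [if_pos hu, if_neg hv, abs_le]
    have := hc u v hu hv
    constructor
    · intro h3; linarith [h3.2]
    · intro h3; constructor <;> linarith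
  · push Not at hc
    obtain ⟨u0, v0, hu0, hv0, h0⟩ := hc
    refine ⟨fun u => if u ∈ s then -h u else -h u + 2, fun u v hu hv => ?_⟩
    show _ ↔ (if u ∈ s then -h u else -h u + 2) ≤ (if v ∈ s then -h v else -h v + 2)
    rw [if_pos hu, if_neg hv, abs_le]
    have h3 := abs_le.1 (h1 u hu u0 hu0)
    have h4 := abs_le.1 (h2 v0 hv0 v hv)
    constructor
    · intro h5; linarith [h5.1]
    · intro h5; constructor <;> linarith [h3.1, h3.2, h4.1, h4.2]

/-- Unit square graphs covered by two cliques are two-sided. -/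
theorem twoSided_of_square {V : Type} {G : SimpleGraph V} (h1 : CoBipartite G)
    (h2 : IsUnitBallGraph (Fin 2 → ℝ) G) : TwoSided G := by
  obtain ⟨s, hs⟩ := h1
  obtain ⟨z, hz⟩ := h2
  have hd : ∀ u v, dist (z u) (z v) ≤ 2 ↔ (|z u 0 - z v 0| ≤ 2 ∧ |z u 1 - z v 1| ≤ 2) := by
    intro u v
    rw [dist_pi_le_iff (by norm_num)]
    constructor
    · intro h
      exact ⟨by have := h 0; rwa [Real.dist_eq] at this, by have := h 1; rwa [Real.dist_eq] at this⟩
    · rintro ⟨h3, h4⟩ i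
      fin_cases i
      · rw [Real.dist_eq]; exact h3
      · rw [Real.dist_eq]; exact h4
  have hz' : ∀ u v, G.Adj u v ↔ u ≠ v ∧ dist (z u) (z v) ≤ 2 := by
    intro u v
    rw [hz, closedBall_inter_nonempty]
  have hsame : ∀ u v, (u ∈ s ↔ v ∈ s) → dist (z u) (z v) ≤ 2 := by
    intro u v h
    by_cases huv : u = v
    · rw [huv, dist_self]; norm_num
    · exact ((hz' u v).1 (hs u v huv h)).2
  obtain ⟨x, hx⟩ := coord s (fun v => z v 0)
    (fun u hu v hv => ((hd u v).1 (hsame u v ⟨fun _ => hv, fun _ => hu⟩)).1)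
    (fun u hu v hv => ((hd u v).1 (hsame u v ⟨fun h => absurd h hu, fun h => absurd h hv⟩)).1)
  obtain ⟨y, hy⟩ := coord s (fun v => z v 1)
    (fun u hu v hv => ((hd u v).1 (hsame u v ⟨fun _ => hv, fun _ => hu⟩)).2)
    (fun u hu v hv => ((hd u v).1 (hsame u v ⟨fun h => absurd h hu, fun h => absurd h hv⟩)).2)
  refine ⟨s, True, True, x, y, fun u v huv h => ⟨fun _ => trivial, fun _ => hs u v huv h⟩,
    fun u v hu hv => ?_⟩
  have hne : u ≠ v := by
    rintro rfl
    exact hv hu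
  rw [iff_true, hz', hd, hx u v hu hv, hy u v hu hv]
  exact ⟨fun h => h.2, fun h => ⟨hne, h⟩⟩

end

end Pool.Agent.J4.H79.OR
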