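import Pool.Agent.J4.H79.OR.Mods

/-!
# Hereditary classes of labelled structures with row separation
-/

set_option autoImplicit false
set_option linter.unusedSectionVars false

namespace Pool.Agent.J4.H79.OR

open Relation Finset

section
variable {V : Bool → Type} [∀ i, Fintype (V i)] {K L : Type} {c : ∀ i, V i → V i → K}
  {lab : ∀ i, V i → V i → L} {τ : L → L}

/-- the setoid of the relation `Md` -/
def mdSetoid {V L : Type} (lab : V → V → L) (h1 : ∀ l x y, ReflTransGen (AL lab l) x y)
    (τ : L → L) (hτ : ∀ x y, lab y x = τ (lab x y)) (hnt : Nontrivial V) : Setoid V where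
  r := Md lab
  iseqv := ⟨fun x => md_refl x, fun h => h.symm, fun h h' => h.trans h1 hτ h'⟩

/-- The case in which all relations `AL lab l` are strongly connected. -/
theorem modular (hS : St V c) (hL : Lab c lab τ)
    (h1 : ∀ i l x y, ReflTransGen (AL (lab i) l) x y) (hnt : ∀ i, Nontrivial (V i))
    (hlink : ∃ x x', c false x x = c true x' x')
    (hsep : ∃ v : V false, ∀ x y, c false v x = c false v y → Md (lab false) x y)
    (ih : ClassIso c lab (fun i => mdSetoid (lab i) (h1 i) τ (fun x y => hL.swap i x y) (hnt i))) :
    Isom c lab := by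
  classical
  have := hnt false
  have := hnt true
  have hinv : ∀ {i j : Bool} {x y : V i} {x' y' : V j}, c i x y = c j x' y' →
      (Md (lab i) x y ↔ Md (lab j) x' y') := fun h =>
    ⟨md_invariant hS hL h1 hnt h, md_invariant hS hL h1 hnt h.symm⟩
  have hτ : ∀ i (x y : V i), lab i y x = τ (lab i x y) := fun i x y => hL.swap i x y
  obtain ⟨v, sepG⟩ := hsep
  obtain ⟨x0, x0', hx0⟩ := hlink
  obtain ⟨β0, hβ0⟩ := hS.row hx0
  have hvv : c false v v = c true (β0 v) (β0 v) := hS.right (hβ0 v)
  set v' := β0 v with hv'
  obtain ⟨β, hβ⟩ := hS.row hvv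
  have sepH : ∀ {a b : V true}, c true v' a = c true v' b → Md (lab true) a b := by
    intro a b hab
    have ha : c false v (β.symm a) = c true v' a := by
      have := hβ (β.symm a)
      rwa [β.apply_symm_apply] at this
    obtain ⟨γ, hγ⟩ := hS.step ha
    obtain ⟨z, rfl⟩ := γ.surjective b
    have h3 : Md (lab false) z (β.symm a) := sepG _ _ ((hγ z).1.trans (hab.symm.trans ha.symm))
    exact ((hinv (hγ z).2).1 h3).symm
  have trans : ∀ x y : V false, ∃ y' : V true, Md (lab true) y' (β y) ∧
      c false y x = c true y' (β x) := by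
    intro x y
    obtain ⟨γ, hγ⟩ := hS.step (hβ x)
    exact ⟨γ y, sepH ((hγ y).1.symm.trans (hβ y)), (hγ y).2⟩
  have hEiff : ∀ x y : V false, Md (lab false) x y ↔ Md (lab true) (β x) (β y) := by
    intro x y
    obtain ⟨y', h3, h4⟩ := trans x y
    constructor
    · intro h
      have h5 : Md (lab true) y' (β x) := (hinv h4).1 h.symm
      exact (h5.symm).trans (h1 true) (hτ true) h3
    · intro h
      have h5 : Md (lab true) y' (β x) := h3.trans (h1 true) (hτ true) h.symm
      exact ((hinv h4).2 h5).symm
  have hcross : ∀ x y : V false, ¬ Md (lab false) x y → lab false x y = lab true (β x) (β y) := by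
    intro x y hxy
    obtain ⟨y', h3, h4⟩ := trans x y
    rw [hτ false y x, hL.inv h4, ← hτ true y' (β x)]
    exact h3.lab_eq fun h5 => hxy ((hinv h4).2 h5).symm
  let σ : Quotient (mdSetoid (lab false) (h1 false) τ (hτ false) (hnt false)) ≃
      Quotient (mdSetoid (lab true) (h1 true) τ (hτ true) (hnt true)) :=
    Quotient.congr β fun x y => hEiff x y
  refine isom_of_classes σ (fun x => ⟨β x, hS.right (hβ x), rfl⟩) ih ?_
  intro x y x' y' h3 h4 h5
  have h6 : ¬ Md (lab false) x y := h3
  have h4' : Md (lab true) x' (β x) := Quotient.exact h4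
  have h5' : Md (lab true) y' (β y) := Quotient.exact h5
  have h7 : ¬ Md (lab true) (β x) (β y) := fun h => h6 ((hEiff x y).2 h)
  have h9 : ¬ Md (lab true) (β y) (β x) := fun h => h7 h.symm
  have h8 : ¬ Md (lab true) x' (β y) := fun h => h7 ((h4'.symm).trans (h1 true) (hτ true) h)
  have h10 : ¬ Md (lab true) y' x' := fun h => h8 ((h.symm).trans (h1 true) (hτ true) h5')
  have h11 : ¬ Md (lab true) (β x) y' := fun h =>
    h10 ((h4'.trans (h1 true) (hτ true) h).symm)
  rw [hcross x y h6, h5'.symm.lab_eq h9, hτ true y' (β x), h4'.symm.lab_eq h11, ← hτ true y' x']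

end

/-- **The induction.** -/
theorem induct {L : Type} {τ : L → L} (P : ∀ V : Type, (V → V → L) → Prop)
    (hP : ∀ (V : Type) (lab : V → V → L) (S : Set V), P V lab →
      P ↥S (fun x y => lab x.1 y.1))
    (hsep : ∀ (V : Type) [Fintype V] (K : Type) (c : V → V → K) (lab : V → V → L),
      P V lab → (∀ l x y, ReflTransGen (AL lab l) x y) → Nontrivial V →
      (∀ x y, lab y x = τ (lab x y)) →
      (∀ v x y, c v x = c v y → ∃ β : V ≃ V, ∀ z, c v z = c v (β z) ∧ lab z x = lab (β z) y) →
      (∀ x y z w, c x y = c z w → lab x y = lab z w) →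
      ∃ v, ∀ x y, c v x = c v y → Md lab x y) (n : ℕ) :
    ∀ (V : Bool → Type) [∀ i, Fintype (V i)] {K : Type} (c : ∀ i, V i → V i → K)
      (lab : ∀ i, V i → V i → L), St V c → Lab c lab τ → Nat.card (V false) ≤ n →
      P (V false) (lab false) → (∃ x x', c false x x = c true x' x') → Isom c lab := by
  induction n with
  | zero =>
    intro V _ K c lab hS hL hn hG hlink
    obtain ⟨x, -⟩ := hlink
    have : Nonempty (V false) := ⟨x⟩
    have := Nat.card_pos (α := V false)
    omega
  | succ n ih =>
    intro V _ K c lab hS hL hn hG hlink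
    classical
    have hτ : ∀ i (x y : V i), lab i y x = τ (lab i x y) := fun i x y => hL.swap i x y
    -- the classes of an invariant nontrivial equivalence relation
    have hclass : ∀ E : ∀ i, Setoid (V i), InvE c E → (¬ ∀ x y, (E false).r x y) →
        ClassIso c lab E := by
      intro E hE hnc x x' hxx
      let p : ∀ i, V i := fun i => match i with
        | false => x
        | true => x'
      have hst : St (fun i => ↥({z | (E i).r (p i) z} : Set (V i)))
          (fun i x y => c i x.1 y.1) := by
        refine hS.restrict (fun i => {z | (E i).r (p i) z}) ?_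
        intro i j a d a' d' had ha ha'
        constructor
        · intro hd
          exact (E j).trans ha' ((hE.iff had).1 ((E i).trans ((E i).symm ha) hd))
        · intro hd
          exact (E i).trans ha ((hE.iff had).2 ((E j).trans ((E j).symm ha') hd))
      have hy : ∃ y, y ∉ {z | (E false).r x z} := by
        by_contra hc
        push Not at hc
        exact hnc fun y z => (E false).trans ((E false).symm (hc y)) (hc z)
      obtain ⟨y, hy⟩ := hy
      have h1 : Nat.card ({z | (E false).r x z} : Set (V false)) < Nat.card (V false) := by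
        rw [Nat.card_eq_fintype_card, Nat.card_eq_fintype_card]
        exact Fintype.card_subtype_lt (p := fun z => z ∈ {z | (E false).r x z}) hy
      obtain ⟨φ, hφ1, hφ2⟩ := ih (fun i => ↥({z | (E i).r (p i) z} : Set (V i)))
        (fun i x y => c i x.1 y.1) (fun i x y => lab i x.1 y.1) hst
        ⟨fun h => hL.inv h, fun i x y => hL.swap i x.1 y.1⟩
        (Nat.le_of_lt_succ (lt_of_lt_of_le h1 hn)) (hP _ _ _ hG)
        ⟨⟨x, (E false).refl x⟩, ⟨x', (E true).refl x'⟩, hxx⟩
      exact ⟨φ, hφ1, hφ2⟩
    by_cases hall : ∀ l x y, ReflTransGen (AL (lab false) l) x y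
    · by_cases hsub : Subsingleton (V false)
      · obtain ⟨x, x', hx⟩ := hlink
        obtain ⟨β, hβ⟩ := hS.row hx
        have : Subsingleton (V true) := β.symm.injective.subsingleton
        refine ⟨β, fun a b => ?_, fun a => ?_⟩
        · rw [Subsingleton.elim b a, Subsingleton.elim (β a) x', Subsingleton.elim a x]
          exact hL.inv hx
        · exact hS.right (hβ a)
      · rw [not_subsingleton_iff_nontrivial] at hsub
        obtain ⟨x0, x0', hx0⟩ := hlink
        obtain ⟨β, hβ⟩ := hS.row hx0
        have hpair : ∀ a b : V true, ∃ x y : V false, c false x y = c true a b := by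
          intro a b
          obtain ⟨x, rfl⟩ := β.surjective a
          obtain ⟨γ, hγ⟩ := hS.row (hS.right (hβ x))
          exact ⟨x, γ.symm b, by rw [hγ, γ.apply_symm_apply]⟩
        have hnt : ∀ i, Nontrivial (V i) := by
          intro i
          match i with
          | false => exact hsub
          | true => exact β.symm.surjective.nontrivial
        have d1 : ∀ i l x y, ReflTransGen (AL (lab i) l) x y := by
          intro i
          match i with
          | false => exact hall
          | true =>
            intro l a b
            obtain ⟨x, y, h⟩ := hpair a b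
            exact hS.closure (fun i => AL (lab i) l) (AL_inv hS hL l) h (hall l x y)
        refine modular hS hL d1 hnt ⟨x0, x0', hx0⟩ ?_ ?_
        · refine hsep (V false) K (c false) (lab false) hG hall hsub (hτ false) ?_ ?_
          · intro v x y hxy
            obtain ⟨γ, hγ⟩ := hS.step hxy
            exact ⟨γ, fun z => ⟨(hγ z).1, hL.inv (hγ z).2⟩⟩
          · intro x y z w h
            exact hL.inv h
        · refine hclass _ ⟨fun h => ?_⟩ fun hc => ?_
          · exact ⟨md_invariant hS hL d1 hnt h, md_invariant hS hL d1 hnt h.symm⟩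
          · obtain ⟨y, hy⟩ := exists_not_md hall (hτ false) x0
            exact hy (hc x0 y)
    · push Not at hall
      obtain ⟨l, x, y, hxy⟩ := hall
      have hnc : ¬ ∀ x y, (mrel (lab false) l).r x y := fun h => hxy (h x y).1
      have hci := hclass (fun i => mrel (lab i) l) (mrel_inv hS hL l) hnc
      by_cases hl : τ l = l
      · refine uniform hS (mrel_inv hS hL l) hlink l ?_ hci
        intro i x y h
        rcases not_mrel (fun x y => hτ i x y) h with h1 | h1
        · exact h1
        · rw [hτ i y x, h1, hl]
      · exact linear hS hL l hl hlink hci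

end Pool.Agent.J4.H79.OR
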