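import Pool.Agent.J4.H79.OR.Struct

/-!
# The case of a linear order of classes
-/

set_option autoImplicit false
set_option linter.unusedSectionVars false

namespace Pool.Agent.J4.H79.OR

open Relation Finset

/-- different points whose label is not `l` -/
def AL {V L : Type} (lab : V → V → L) (l : L) (x y : V) : Prop := x ≠ y ∧ lab x y ≠ l

section
variable {V L : Type} {lab : V → V → L} {τ : L → L} {l : L}

/-- mrel reachability -/
def mrel (lab : V → V → L) (l : L) : Setoid V where
  r x y := ReflTransGen (AL lab l) x y ∧ ReflTransGen (AL lab l) y x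
  iseqv := ⟨fun _ => ⟨ReflTransGen.refl, ReflTransGen.refl⟩, fun h => ⟨h.2, h.1⟩,
    fun h h' => ⟨h.1.trans h'.1, h'.2.trans h.2⟩⟩

theorem not_mrel (hτ : ∀ x y, lab y x = τ (lab x y)) {x y : V}
    (h : ¬ (mrel lab l).r x y) : lab x y = l ∨ lab y x = l := by
  by_contra hc
  rw [not_or] at hc
  have hne : x ≠ y := by
    rintro rfl
    exact h ((mrel lab l).refl x)
  exact h ⟨ReflTransGen.single ⟨hne, hc.1⟩, ReflTransGen.single ⟨hne.symm, hc.2⟩⟩

/-- precedence is homogeneous on classes -/
theorem lab_right (hτ : ∀ x y, lab y x = τ (lab x y)) (hl : τ l ≠ l) {x y z : V}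
    (hxy : (mrel lab l).r x y) (hz : ¬ (mrel lab l).r z x) (h : lab z x = l) : lab z y = l := by
  by_contra hc
  apply hz
  have h1 : ReflTransGen (AL lab l) z y := by
    by_cases hzy : z = y
    · rw [hzy]
    · exact ReflTransGen.single ⟨hzy, hc⟩
  refine ⟨h1.trans hxy.2, ?_⟩
  by_cases hxz : x = z
  · rw [hxz]
  · refine ReflTransGen.single ⟨hxz, ?_⟩
    rw [hτ z x, h]
    exact hl

variable [Fintype V]

open Classical in
/-- the number of points in earlier classes -/
noncomputable def rank (lab : V → V → L) (l : L) (x : V) : ℕ :=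
  (univ.filter fun z => ¬ (mrel lab l).r z x ∧ lab z x = l).card

theorem rank_eq (hτ : ∀ x y, lab y x = τ (lab x y)) (hl : τ l ≠ l) {x y : V}
    (hxy : (mrel lab l).r x y) : rank lab l x = rank lab l y := by
  classical
  unfold rank
  congr 1
  ext z
  rw [mem_filter, mem_filter]
  constructor
  · rintro ⟨-, h1, h2⟩
    exact ⟨mem_univ _, fun h => h1 ((mrel lab l).trans h ((mrel lab l).symm hxy)),
      lab_right hτ hl hxy h1 h2⟩
  · rintro ⟨-, h1, h2⟩
    exact ⟨mem_univ _, fun h => h1 ((mrel lab l).trans h hxy),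
      lab_right hτ hl ((mrel lab l).symm hxy) h1 h2⟩

theorem rank_lt (hτ : ∀ x y, lab y x = τ (lab x y)) (hl : τ l ≠ l) {x y : V}
    (hxy : ¬ (mrel lab l).r x y) (h : lab x y = l) : rank lab l x < rank lab l y := by
  classical
  have hyx : lab y x ≠ l := by
    rw [hτ x y, h]
    exact hl
  have hne : y ≠ x := by
    rintro rfl
    exact hxy ((mrel lab l).refl y)
  have ry : ReflTransGen (AL lab l) y x := ReflTransGen.single ⟨hne, hyx⟩
  unfold rank
  refine Finset.card_lt_card ⟨fun z hz => ?_, fun hs => ?_⟩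
  · rw [mem_filter] at hz ⊢
    obtain ⟨-, h1, h2⟩ := hz
    have rz : ReflTransGen (AL lab l) x z := by
      by_cases hxz : x = z
      · rw [hxz]
      · refine ReflTransGen.single ⟨hxz, ?_⟩
        rw [hτ z x, h2]
        exact hl
    have h3 : lab z y = l := by
      by_contra hc
      apply h1
      refine ⟨?_, rz⟩
      by_cases hzy : z = y
      · rw [hzy]; exact ry
      · exact (ReflTransGen.single ⟨hzy, hc⟩ : ReflTransGen (AL lab l) z y).trans ry
    refine ⟨mem_univ _, fun h4 => ?_, h3⟩
    have h5 : lab x z = l := lab_right hτ hl ((mrel lab l).symm h4) hxy h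
    rw [hτ z x, h2] at h5
    exact hl h5
  · have h1 : x ∈ univ.filter fun z => ¬ (mrel lab l).r z y ∧ lab z y = l := by
      rw [mem_filter]
      exact ⟨mem_univ _, hxy, h⟩
    have h2 := hs h1
    rw [mem_filter] at h2
    exact h2.2.1 ((mrel lab l).refl x)

theorem mrel_iff_rank (hτ : ∀ x y, lab y x = τ (lab x y)) (hl : τ l ≠ l) {x y : V} :
    (mrel lab l).r x y ↔ rank lab l x = rank lab l y := by
  constructor
  · exact rank_eq hτ hl
  · intro h
    by_contra hc
    rcases not_mrel hτ hc with h1 | h1
    · exact absurd h (ne_of_lt (rank_lt hτ hl hc h1))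
    · exact absurd h.symm (ne_of_lt (rank_lt hτ hl (fun h => hc ((mrel lab l).symm h)) h1))

theorem lab_iff_rank (hτ : ∀ x y, lab y x = τ (lab x y)) (hl : τ l ≠ l) {x y : V}
    (hxy : ¬ (mrel lab l).r x y) : lab x y = l ↔ rank lab l x < rank lab l y := by
  constructor
  · exact rank_lt hτ hl hxy
  · intro h
    rcases not_mrel hτ hxy with h1 | h1
    · exact h1
    · exact absurd (rank_lt hτ hl (fun h => hxy ((mrel lab l).symm h)) h1) (lt_asymm h)

end

variable {V : Bool → Type} [∀ i, Fintype (V i)] {K L : Type} {c : ∀ i, V i → V i → K}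
  {lab : ∀ i, V i → V i → L} {τ : L → L}

theorem AL_inv (hS : St V c) (hL : Lab c lab τ) (l : L) {i j : Bool} {x y : V i} {x' y' : V j}
    (h : c i x y = c j x' y') (hA : AL (lab i) l x y) : AL (lab j) l x' y' :=
  ⟨fun he => hA.1 ((hS.eq_iff h).2 he), fun he => hA.2 ((hL.inv h).trans he)⟩

/-- reachability against the colouring: the second relation needs the swapped pair -/
theorem AL_swap_inv (hS : St V c) (hL : Lab c lab τ) (l : L) {i j : Bool} {x y : V i} {x' y' : V j}
    (h : c i x y = c j x' y') (hA : ReflTransGen (AL (lab i) l) y x) :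
    ReflTransGen (AL (lab j) l) y' x' := by
  have key : ReflTransGen (fun a b => AL (lab i) l b a) x y := by
    clear h
    induction hA with
    | refl => exact ReflTransGen.refl
    | tail _ h2 ih => exact ReflTransGen.head h2 ih
  have h3 : ReflTransGen (fun a b => AL (lab j) l b a) x' y' := by
    refine hS.closure (fun i a b => AL (lab i) l b a) ?_ h key
    intro i j a b a' b' hab hA
    refine ⟨fun he => hA.1 ((hS.eq_iff hab).2 he.symm).symm, fun he => hA.2 ?_⟩
    rw [hL.swap i a b, hL.inv hab, ← hL.swap j a' b']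
    exact he
  clear h key
  induction h3 with
  | refl => exact ReflTransGen.refl
  | tail _ h2 ih => exact ReflTransGen.head h2 ih

theorem mrel_inv (hS : St V c) (hL : Lab c lab τ) (l : L) :
    InvE c (fun i => mrel (lab i) l) where
  iff := by
    intro i j x y x' y' h
    constructor
    · rintro ⟨h1, h2⟩
      exact ⟨hS.closure (fun i => AL (lab i) l) (AL_inv hS hL l) h h1, AL_swap_inv hS hL l h h2⟩
    · rintro ⟨h1, h2⟩
      exact ⟨hS.closure (fun i => AL (lab i) l) (AL_inv hS hL l) h.symm h1,
        AL_swap_inv hS hL l h.symm h2⟩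

theorem rank_inv (hS : St V c) (hL : Lab c lab τ) (l : L) {i j : Bool} {x : V i} {x' : V j}
    (h : c i x x = c j x' x') : rank (lab i) l x = rank (lab j) l x' := by
  classical
  obtain ⟨β, hβ⟩ := hS.row h
  have key : ∀ z, (¬ (mrel (lab i) l).r z x ∧ lab i z x = l) ↔
      (¬ (mrel (lab j) l).r (β z) x' ∧ lab j (β z) x' = l) := by
    intro z
    have h1 := (mrel_inv hS hL l).iff (hβ z)
    have h2 : (mrel (lab i) l).r z x ↔ (mrel (lab j) l).r (β z) x' :=
      ⟨fun h => (mrel (lab j) l).symm (h1.1 ((mrel (lab i) l).symm h)),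
        fun h => (mrel (lab i) l).symm (h1.2 ((mrel (lab j) l).symm h))⟩
    rw [h2, hL.swap i x z, hL.swap j x' (β z), hL.inv (hβ z)]
  unfold rank
  refine Finset.card_bij (fun z _ => β z) ?_ (fun a _ b _ hab => β.injective hab) ?_
  · intro z hz
    rw [mem_filter] at hz ⊢
    exact ⟨mem_univ _, (key z).1 hz.2⟩
  · intro z hz
    rw [mem_filter] at hz
    obtain ⟨y, rfl⟩ := β.surjective z
    exact ⟨y, by rw [mem_filter]; exact ⟨mem_univ _, (key y).2 hz.2⟩, rfl⟩

/-- **A linear order of classes.** -/
theorem linear (hS : St V c) (hL : Lab c lab τ) (l : L) (hl : τ l ≠ l)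
    (hlink : ∃ x x', c false x x = c true x' x')
    (ih : ClassIso c lab (fun i => mrel (lab i) l)) : Isom c lab := by
  obtain ⟨x0, x0', hx0⟩ := hlink
  obtain ⟨β, hβ⟩ := hS.row hx0
  have hd : ∀ z, c false z z = c true (β z) (β z) := fun z => hS.right (hβ z)
  have hr : ∀ z, rank (lab false) l z = rank (lab true) l (β z) := fun z => rank_inv hS hL l (hd z)
  have hE : ∀ x y, (mrel (lab false) l).r x y ↔ (mrel (lab true) l).r (β x) (β y) := by
    intro x y
    rw [mrel_iff_rank (fun x y => hL.swap false x y) hl,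
      mrel_iff_rank (fun x y => hL.swap true x y) hl, hr, hr]
  let σ : Quotient (mrel (lab false) l) ≃ Quotient (mrel (lab true) l) :=
    Quotient.congr β fun x y => hE x y
  refine isom_of_classes σ (fun x => ⟨β x, hd x, rfl⟩) ih ?_
  intro x y x' y' h1 h2 h3
  have h2' : (mrel (lab true) l).r x' (β x) := Quotient.exact h2
  have h3' : (mrel (lab true) l).r y' (β y) := Quotient.exact h3
  have h4 : ¬ (mrel (lab true) l).r x' y' := fun h => h1 ((hE x y).2
    ((mrel (lab true) l).trans ((mrel (lab true) l).symm h2') ((mrel (lab true) l).trans h h3')))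
  have r1 : rank (lab true) l x' = rank (lab false) l x := by
    rw [(mrel_iff_rank (fun x y => hL.swap true x y) hl).1 h2', hr]
  have r2 : rank (lab true) l y' = rank (lab false) l y := by
    rw [(mrel_iff_rank (fun x y => hL.swap true x y) hl).1 h3', hr]
  have key : lab false x y = l ↔ lab true x' y' = l := by
    rw [lab_iff_rank (fun x y => hL.swap false x y) hl h1,
      lab_iff_rank (fun x y => hL.swap true x y) hl h4, r1, r2]
  by_cases h5 : lab false x y = l
  · rw [h5, key.1 h5]
  · have h6 : lab true x' y' ≠ l := fun h => h5 (key.2 h)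
    have h7 : lab false y x = l :=
      (not_mrel (fun x y => hL.swap false x y) h1).resolve_left h5
    have h8 : lab true y' x' = l :=
      (not_mrel (fun x y => hL.swap true x y) h4).resolve_left h6
    rw [hL.swap false y x, hL.swap true y' x', h7, h8]

end Pool.Agent.J4.H79.OR
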