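import Pool.Agent.J4.H79.OR.Linear

/-!
# Modules of labelled structures and the Weisfeiler-Leman method
-/

set_option autoImplicit false
set_option linter.unusedSectionVars false

namespace Pool.Agent.J4.H79.OR

open Relation Finset

section
variable {V L : Type} (lab : V → V → L)

/-- a module: an outside point has equal labels with all points of the module -/
def IsMod (M : Set V) : Prop := ∀ x ∈ M, ∀ y ∈ M, ∀ z, z ∉ M → lab z x = lab z y

/-- `x` and `y` lie in a common proper module -/
def Md (x y : V) : Prop := ∃ M : Set V, IsMod lab M ∧ M ≠ Set.univ ∧ x ∈ M ∧ y ∈ M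

variable {lab}

theorem IsMod.union {M N : Set V} (hM : IsMod lab M) (hN : IsMod lab N) {x : V}
    (hxM : x ∈ M) (hxN : x ∈ N) : IsMod lab (M ∪ N) := by
  intro y hy z hz w hw
  rw [Set.mem_union, not_or] at hw
  have key : ∀ y ∈ M ∪ N, lab w y = lab w x := by
    rintro y (hy | hy)
    · exact hM y hy x hxM w hw.1
    · exact hN y hy x hxN w hw.2
  rw [key y hy, key z hz]

/-- no arcs of `AL lab l` lead from the complement of `M` to `M` -/
theorem not_reach {M : Set V} {l : L} (h : ∀ m ∈ M, ∀ y, y ∉ M → lab y m = l) {x y : V}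
    (hx : x ∉ M) (hy : y ∈ M) : ¬ ReflTransGen (AL lab l) x y := by
  intro hr
  have key : y ∉ M := by
    clear hy
    induction hr with
    | refl => exact hx
    | tail _ h4 ih =>
      intro hc
      exact h4.2 (h _ hc _ ih)
  exact key hy

/-- the union of two overlapping proper modules is proper -/
theorem union_ne (h1 : ∀ l x y, ReflTransGen (AL lab l) x y) {τ : L → L}
    (hτ : ∀ x y, lab y x = τ (lab x y))
    {M N : Set V} (hM : IsMod lab M) (hN : IsMod lab N) (hM' : M ≠ Set.univ)
    (hN' : N ≠ Set.univ) {x : V} (hxM : x ∈ M) : M ∪ N ≠ Set.univ := by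
  intro hu
  obtain ⟨a, ha⟩ := (Set.ne_univ_iff_exists_notMem N).1 hN'
  obtain ⟨b, hb⟩ := (Set.ne_univ_iff_exists_notMem M).1 hM'
  have haM : a ∈ M := (show a ∈ M ∪ N by rw [hu]; trivial).resolve_right ha
  have key : ∀ m ∈ M, ∀ y, y ∉ M → lab y m = lab b a := by
    intro m hm y hy
    have hyN : y ∈ N := (show y ∈ M ∪ N by rw [hu]; trivial).resolve_left hy
    have hbN : b ∈ N := (show b ∈ M ∪ N by rw [hu]; trivial).resolve_left hb
    rw [hM m hm a haM y hy, hτ a y, hτ a b, hN y hyN b hbN a ha]
  exact not_reach key hb hxM (h1 _ b x)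

theorem Md.symm {x y : V} (h : Md lab x y) : Md lab y x := by
  obtain ⟨M, h1, h2, h3, h4⟩ := h
  exact ⟨M, h1, h2, h4, h3⟩

theorem md_refl [Nontrivial V] (x : V) : Md lab x x := by
  obtain ⟨y, hy⟩ := exists_ne x
  refine ⟨{x}, ?_, ?_, rfl, rfl⟩
  · rintro a rfl b rfl z _
    rfl
  · intro h
    exact hy (by
      have : y ∈ ({x} : Set V) := by rw [h]; trivial
      exact this)

theorem Md.trans (h1 : ∀ l x y, ReflTransGen (AL lab l) x y) {τ : L → L}
    (hτ : ∀ x y, lab y x = τ (lab x y))
    {x y z : V} (h : Md lab x y) (h' : Md lab y z) : Md lab x z := by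
  obtain ⟨M, a1, a2, a3, a4⟩ := h
  obtain ⟨N, b1, b2, b3, b4⟩ := h'
  exact ⟨M ∪ N, a1.union b1 a4 b3, union_ne h1 hτ a1 b1 a2 b2 a4, Or.inl a3, Or.inr b4⟩

/-- a point outside the class of `x` does not distinguish `x` and the elements of the class -/
theorem Md.lab_eq {x y z : V} (h : Md lab x y) (hz : ¬ Md lab x z) : lab z x = lab z y := by
  obtain ⟨M, a1, a2, a3, a4⟩ := h
  exact a1 x a3 y a4 z fun hzM => hz ⟨M, a1, a2, a3, hzM⟩

/-- the class of `x` is proper -/
theorem exists_not_md [Finite V] (h1 : ∀ l x y, ReflTransGen (AL lab l) x y) {τ : L → L}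
    (hτ : ∀ x y, lab y x = τ (lab x y)) [Nontrivial V] (x : V) : ∃ y, ¬ Md lab x y := by
  by_contra hc
  push Not at hc
  have hfin : {M : Set V | IsMod lab M ∧ M ≠ Set.univ ∧ x ∈ M}.Finite := Set.toFinite _
  have hne : {M : Set V | IsMod lab M ∧ M ≠ Set.univ ∧ x ∈ M}.Nonempty := by
    obtain ⟨M, a1, a2, a3, -⟩ := md_refl (lab := lab) x
    exact ⟨M, a1, a2, a3⟩
  obtain ⟨M, hM⟩ := hfin.exists_maximal hne
  obtain ⟨⟨a1, a2, a3⟩, hmax⟩ := hM
  obtain ⟨y, hy⟩ := (Set.ne_univ_iff_exists_notMem M).1 a2
  obtain ⟨N, b1, b2, b3, b4⟩ := hc y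
  have h3 : M ∪ N ∈ {M : Set V | IsMod lab M ∧ M ≠ Set.univ ∧ x ∈ M} :=
    ⟨a1.union b1 a3 b3, union_ne h1 hτ a1 b1 a2 b2 a3, Or.inl a3⟩
  exact hy (hmax h3 Set.subset_union_left (Or.inr b4))

variable (lab) in
/-- the arcs from `y` to every point `z` which distinguishes `x` and `y` -/
def Arc (x y z : V) : Prop := z ≠ x ∧ z ≠ y ∧ lab z x ≠ lab z y

/-- A point that lies in no common proper module with `x` reaches everything. -/
theorem reach {x y : V} (h : ¬ Md lab x y) (z : V) (hz : z ≠ x) :
    ReflTransGen (Arc lab x) y z := by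
  by_contra hc
  apply h
  refine ⟨{w | w = x ∨ ReflTransGen (Arc lab x) y w}, ?_, ?_, Or.inl rfl,
    Or.inr ReflTransGen.refl⟩
  · have key : ∀ a, (a = x ∨ ReflTransGen (Arc lab x) y a) →
        ∀ w, w ∉ {w | w = x ∨ ReflTransGen (Arc lab x) y w} → lab w a = lab w x := by
      intro a ha w hw
      have hw' : ¬ (w = x ∨ ReflTransGen (Arc lab x) y w) := hw
      rw [not_or] at hw'
      rcases ha with rfl | ha
      · rfl
      · by_contra hcon
        apply hw'.2
        refine ha.tail ⟨hw'.1, ?_, fun h' => hcon h'.symm⟩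
        rintro rfl
        exact hw'.2 ha
    intro a ha b hb w hw
    rw [key a ha w hw, key b hb w hw]
  · intro hu
    have : z ∈ {w | w = x ∨ ReflTransGen (Arc lab x) y w} := by rw [hu]; trivial
    exact this.elim hz hc

/-- No arc leads out of the class of `x`. -/
theorem Arc.md {x y z : V} (h : Arc lab x y z) (hz : ¬ Md lab x z) : ¬ Md lab x y := by
  intro hy
  exact h.2.2 (hy.lab_eq hz)

/-- There is a point outside the class of `x` whose label with `x` is different from a given
one. -/
theorem exists_dist [Finite V] (h1 : ∀ l x y, ReflTransGen (AL lab l) x y) {τ : L → L}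
    (hτ : ∀ x y, lab y x = τ (lab x y)) [Nontrivial V] (x : V) (l : L) :
    ∃ u, ¬ Md lab x u ∧ lab x u ≠ l := by
  by_contra hc
  push Not at hc
  obtain ⟨b, hb⟩ := exists_not_md h1 hτ x
  -- from the class of `x` there are no arcs to the complement
  have key : ∀ m ∈ {m | ¬ Md lab x m}, ∀ y, y ∉ {m | ¬ Md lab x m} → lab y m = l := by
    intro m hm y hy
    have hy' : Md lab x y := not_not.1 hy
    have hm' : ¬ Md lab x m := hm
    rw [hτ m y, ← hy'.lab_eq hm', ← hτ m x]
    exact hc m hm'
  exact not_reach key (x := x) (y := b) (fun h => h (md_refl x)) hb (h1 _ x b)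

end

variable {V : Bool → Type} [∀ i, Fintype (V i)] {K L : Type} {c : ∀ i, V i → V i → K}
  {lab : ∀ i, V i → V i → L} {τ : L → L}

open Classical in
/-- the points of colour `κ` in the row of `x` -/
noncomputable def row (c : ∀ i, V i → V i → K) (i : Bool) (x : V i) (κ : K) : Finset (V i) :=
  univ.filter fun z => c i x z = κ

open Classical in
/-- the points of colour `κ` in the row of `x` that do not lie in the class of `x` -/
noncomputable def far (lab : ∀ i, V i → V i → L) (c : ∀ i, V i → V i → K) (i : Bool) (x : V i)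
    (κ : K) : Finset (V i) :=
  univ.filter fun z => c i x z = κ ∧ ¬ Md (lab i) x z

/-- the proportion -/
noncomputable def ratio (lab : ∀ i, V i → V i → L) (c : ∀ i, V i → V i → K) (i : Bool) (x : V i)
    (κ : K) : ℚ := ((far lab c i x κ).card : ℚ) / ((row c i x κ).card : ℚ)

theorem lab_inv' (hL : Lab c lab τ) {i j : Bool} {x y : V i} {x' y' : V j}
    (h : c i x y = c j x' y') : lab i y x = lab j y' x' := by
  rw [hL.swap i x y, hL.swap j x' y', hL.inv h]

theorem arc_out (hS : St V c) (hL : Lab c lab τ) {i j : Bool} {x w z : V i} {x' w' z' : V j}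
    (h1 : c i x z = c j x' z') (h2 : c i z w = c j z' w') (h : Arc (lab i) x w z) :
    Arc (lab j) x' w' z' := by
  refine ⟨fun he => h.1 ((hS.eq_iff h1).2 he.symm).symm, fun he => h.2.1 ((hS.eq_iff h2).2 he),
    fun he => h.2.2 ?_⟩
  rw [lab_inv' hL h1, hL.inv h2]
  exact he

theorem arc_in (hS : St V c) (hL : Lab c lab τ) {i j : Bool} {x w z : V i} {x' w' z' : V j}
    (h1 : c i x z = c j x' z') (h2 : c i w z = c j w' z') (h : Arc (lab i) x w z) :
    Arc (lab j) x' w' z' := by
  refine ⟨fun he => h.1 ((hS.eq_iff h1).2 he.symm).symm,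
    fun he => h.2.1 ((hS.eq_iff h2).2 he.symm).symm, fun he => h.2.2 ?_⟩
  rw [lab_inv' hL h1, lab_inv' hL h2]
  exact he

open Classical in
/-- the number of arcs out of a point of the row into a colour -/
theorem card_out (hS : St V c) (hL : Lab c lab τ) {i j : Bool} {x w : V i} {x' w' : V j}
    (h : c i x w = c j x' w') (μ : K) :
    (univ.filter fun z => c i x z = μ ∧ Arc (lab i) x w z).card =
      (univ.filter fun z => c j x' z = μ ∧ Arc (lab j) x' w' z).card := by
  obtain ⟨β, hβ⟩ := hS.step h
  refine Finset.card_bij (fun z _ => β z) ?_ (fun a _ b _ hab => β.injective hab) ?_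
  · intro z hz
    rw [mem_filter] at hz ⊢
    exact ⟨mem_univ _, (hβ z).1.symm.trans hz.2.1, arc_out hS hL (hβ z).1 (hβ z).2 hz.2.2⟩
  · intro z hz
    rw [mem_filter] at hz
    obtain ⟨y, rfl⟩ := β.surjective z
    refine ⟨y, ?_, rfl⟩
    rw [mem_filter]
    exact ⟨mem_univ _, (hβ y).1.trans hz.2.1,
      arc_out hS hL (hβ y).1.symm (hβ y).2.symm hz.2.2⟩

open Classical in
/-- the number of arcs from a colour into a point of the row -/
theorem card_in (hS : St V c) (hL : Lab c lab τ) {i j : Bool} {x z : V i} {x' z' : V j}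
    (h : c i x z = c j x' z') (μ : K) :
    (univ.filter fun w => c i x w = μ ∧ Arc (lab i) x w z).card =
      (univ.filter fun w => c j x' w = μ ∧ Arc (lab j) x' w z').card := by
  obtain ⟨β, hβ⟩ := hS.step h
  refine Finset.card_bij (fun w _ => β w) ?_ (fun a _ b _ hab => β.injective hab) ?_
  · intro w hw
    rw [mem_filter] at hw ⊢
    exact ⟨mem_univ _, (hβ w).1.symm.trans hw.2.1, arc_in hS hL h (hβ w).2 hw.2.2⟩
  · intro w hw
    rw [mem_filter] at hw
    obtain ⟨y, rfl⟩ := β.surjective w
    refine ⟨y, ?_, rfl⟩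
    rw [mem_filter]
    exact ⟨mem_univ _, (hβ y).1.trans hw.2.1, arc_in hS hL h.symm (hβ y).2.symm hw.2.2⟩

/-- the basic count -/
theorem ratio_arc (hS : St V c) (hL : Lab c lab τ) {i j : Bool} {x u y : V i} {x' u' y' : V j}
    (hu : c i x u = c j x' u') (hy : c i x y = c j x' y') (harc : Arc (lab j) x' u' y') :
    ratio lab c i x (c i x y) ≤ ratio lab c i x (c i x u) ∧
      (Arc (lab i) x u y → ¬ Md (lab i) x u → Md (lab i) x y →
        ratio lab c i x (c i x y) < ratio lab c i x (c i x u)) := by
  classical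
  set κ := c i x u with hκ
  set μ := c i x y with hμ
  set d := (univ.filter fun z => c i x z = μ ∧ Arc (lab i) x u z).card with hd
  set e := (univ.filter fun w => c i x w = κ ∧ Arc (lab i) x w y).card with he
  have hd' : ∀ w, c i x w = κ → (univ.filter fun z => c i x z = μ ∧ Arc (lab i) x w z).card = d :=
    fun w hw => card_out hS hL hw μ
  have he' : ∀ z, c i x z = μ → (univ.filter fun w => c i x w = κ ∧ Arc (lab i) x w z).card = e :=
    fun z hz => card_in hS hL hz κ
  have hd0 : 0 < d := by
    rw [hd, card_out hS hL hu μ]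
    apply Finset.card_pos.2
    exact ⟨y', by rw [mem_filter]; exact ⟨mem_univ _, hy.symm, harc⟩⟩
  have c1 : (row c i x κ).card * d = (row c i x μ).card * e := by
    refine Finset.card_mul_eq_card_mul (fun w z => Arc (lab i) x w z) ?_ ?_
    · intro w hw
      unfold row at hw
      rw [mem_filter] at hw
      rw [← hd' w hw.2, Finset.bipartiteAbove, row, Finset.filter_filter]
    · intro z hz
      unfold row at hz
      rw [mem_filter] at hz
      rw [← he' z hz.2, Finset.bipartiteBelow, row, Finset.filter_filter]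
  set F1 := (univ : Finset (V i × V i)).filter fun p =>
    (c i x p.1 = κ ∧ ¬ Md (lab i) x p.1) ∧ c i x p.2 = μ ∧ Arc (lab i) x p.1 p.2 with hF1
  set F2 := (univ : Finset (V i × V i)).filter fun p =>
    (c i x p.2 = μ ∧ ¬ Md (lab i) x p.2) ∧ c i x p.1 = κ ∧ Arc (lab i) x p.1 p.2 with hF2
  have c2 : F1.card = (far lab c i x κ).card * d := by
    rw [Finset.card_eq_sum_card_fiberwise (f := Prod.fst) (t := far lab c i x κ)]
    · rw [Finset.sum_const_nat (m := d)]
      intro w hw
      unfold far at hw
      rw [mem_filter] at hw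
      rw [← hd' w hw.2.1]
      refine Finset.card_bij (fun p _ => p.2) ?_ ?_ ?_
      · intro p hp
        rw [mem_filter, hF1, mem_filter] at hp
        rw [mem_filter]
        obtain ⟨⟨-, -, h1, h2⟩, h3⟩ := hp
        rw [h3] at h2
        exact ⟨mem_univ _, h1, h2⟩
      · intro p hp q hq hpq
        rw [mem_filter] at hp hq
        exact Prod.ext (hp.2.trans hq.2.symm) hpq
      · intro z hz
        rw [mem_filter] at hz
        refine ⟨(w, z), ?_, rfl⟩
        rw [mem_filter, hF1, mem_filter]
        exact ⟨⟨mem_univ _, hw.2, hz.2⟩, rfl⟩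
    · intro p hp
      have hp' : p ∈ F1 := hp
      rw [hF1, mem_filter] at hp'
      show p.1 ∈ far lab c i x κ
      unfold far
      rw [mem_filter]
      exact ⟨mem_univ _, hp'.2.1⟩
  have c3 : F2.card = (far lab c i x μ).card * e := by
    rw [Finset.card_eq_sum_card_fiberwise (f := Prod.snd) (t := far lab c i x μ)]
    · rw [Finset.sum_const_nat (m := e)]
      intro z hz
      unfold far at hz
      rw [mem_filter] at hz
      rw [← he' z hz.2.1]
      refine Finset.card_bij (fun p _ => p.1) ?_ ?_ ?_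
      · intro p hp
        rw [mem_filter, hF2, mem_filter] at hp
        rw [mem_filter]
        obtain ⟨⟨-, -, h1, h2⟩, h3⟩ := hp
        rw [h3] at h2
        exact ⟨mem_univ _, h1, h2⟩
      · intro p hp q hq hpq
        rw [mem_filter] at hp hq
        exact Prod.ext hpq (hp.2.trans hq.2.symm)
      · intro w hw
        rw [mem_filter] at hw
        refine ⟨(w, z), ?_, rfl⟩
        rw [mem_filter, hF2, mem_filter]
        exact ⟨⟨mem_univ _, hz.2, hw.2⟩, rfl⟩
    · intro p hp
      have hp' : p ∈ F2 := hp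
      rw [hF2, mem_filter] at hp'
      show p.2 ∈ far lab c i x μ
      unfold far
      rw [mem_filter]
      exact ⟨mem_univ _, hp'.2.1⟩
  have hsub : F2 ⊆ F1 := by
    intro p hp
    rw [hF2, mem_filter] at hp
    rw [hF1, mem_filter]
    obtain ⟨-, ⟨h1, h2⟩, h3, h4⟩ := hp
    exact ⟨mem_univ _, ⟨h3, h4.md h2⟩, h1, h4⟩
  have hn1 : 0 < (row c i x κ).card :=
    Finset.card_pos.2 ⟨u, by unfold row; rw [mem_filter]; exact ⟨mem_univ _, rfl⟩⟩
  have hn2 : 0 < (row c i x μ).card :=
    Finset.card_pos.2 ⟨y, by unfold row; rw [mem_filter]; exact ⟨mem_univ _, rfl⟩⟩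
  have q1 : (0 : ℚ) < (row c i x κ).card := by exact_mod_cast hn1
  have q2 : (0 : ℚ) < (row c i x μ).card := by exact_mod_cast hn2
  have qd : (0 : ℚ) < d := by exact_mod_cast hd0
  have e1 : ((row c i x κ).card : ℚ) * d = (row c i x μ).card * e := by exact_mod_cast c1
  unfold ratio
  constructor
  · rw [div_le_div_iff₀ q2 q1]
    have h1 : ((far lab c i x μ).card : ℚ) * e ≤ (far lab c i x κ).card * d := by
      have := Finset.card_le_card hsub
      rw [c2, c3] at this
      exact_mod_cast this
    have h2 : ((far lab c i x μ).card : ℚ) * (row c i x κ).card * d ≤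
        (far lab c i x κ).card * (row c i x μ).card * d := by
      calc ((far lab c i x μ).card : ℚ) * (row c i x κ).card * d
          = (row c i x μ).card * (((far lab c i x μ).card : ℚ) * e) := by
            rw [mul_assoc, e1]; ring
        _ ≤ (row c i x μ).card * ((far lab c i x κ).card * d) :=
            mul_le_mul_of_nonneg_left h1 q2.le
        _ = (far lab c i x κ).card * (row c i x μ).card * d := by ring
    exact le_of_mul_le_mul_right h2 qd
  · intro ha hfu hfy
    rw [div_lt_div_iff₀ q2 q1]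
    have h1 : ((far lab c i x μ).card : ℚ) * e < (far lab c i x κ).card * d := by
      have hss : F2 ⊂ F1 := by
        refine ⟨hsub, fun hs => ?_⟩
        have h2 : ((u, y) : V i × V i) ∈ F1 := by
          rw [hF1, mem_filter]
          exact ⟨mem_univ _, ⟨rfl, hfu⟩, rfl, ha⟩
        have h3 := hs h2
        rw [hF2, mem_filter] at h3
        exact h3.2.1.2 hfy
      have := Finset.card_lt_card hss
      rw [c2, c3] at this
      exact_mod_cast this
    have h2 : ((far lab c i x μ).card : ℚ) * (row c i x κ).card * d <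
        (far lab c i x κ).card * (row c i x μ).card * d := by
      calc ((far lab c i x μ).card : ℚ) * (row c i x κ).card * d
          = (row c i x μ).card * (((far lab c i x μ).card : ℚ) * e) := by
            rw [mul_assoc, e1]; ring
        _ < (row c i x μ).card * ((far lab c i x κ).card * d) :=
            mul_lt_mul_of_pos_left h1 q2
        _ = (far lab c i x κ).card * (row c i x μ).card * d := by ring
    exact lt_of_mul_lt_mul_right h2 qd.le

/-- **Invariance of `Md`.** -/
theorem md_invariant (hS : St V c) (hL : Lab c lab τ)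
    (h1 : ∀ i l x y, ReflTransGen (AL (lab i) l) x y) (hnt : ∀ i, Nontrivial (V i)) {i j : Bool}
    {x y : V i} {x' y' : V j} (h : c i x y = c j x' y') (hm : Md (lab i) x y) :
    Md (lab j) x' y' := by
  have := hnt i
  have := hnt j
  by_contra hc
  by_cases hxy : x = y
  · have h3 := (hS.eq_iff h).1 hxy
    rw [h3] at hc
    exact hc (md_refl y')
  obtain ⟨u, hu1, hu2⟩ := exists_dist (h1 i) (fun x y => hL.swap i x y) x (lab i y x)
  have hux : u ≠ x := by
    rintro rfl
    exact hu1 (md_refl u)
  have harc : Arc (lab i) x u y := by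
    refine ⟨fun h => hxy h.symm, ?_, fun h3 => hu2 ?_⟩
    · rintro rfl
      exact hu1 hm
    · rw [h3, hL.swap i u x, hm.lab_eq hu1, ← hL.swap i u y]
  obtain ⟨β, hβ⟩ := hS.row (hS.left h)
  have hs := (ratio_arc hS hL (i := i) (j := i) (x := x) (u := u) (y := y) rfl rfl harc).2
    harc hu1 hm
  have hpath := reach hc (β u) (by
    intro h3
    have h4 := hβ u
    rw [h3] at h4
    exact hux ((hS.eq_iff h4).2 rfl).symm)
  have key : ∀ z', ReflTransGen (Arc (lab j) x') y' z' → ∀ z, c i x z = c j x' z' →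
      ratio lab c i x (c i x z) ≤ ratio lab c i x (c i x y) := by
    intro z' hz'
    induction hz' with
    | refl =>
      intro z hz
      rw [hz, h]
    | @tail a b _ hab ih =>
      intro z hz
      obtain ⟨w, hw⟩ := β.surjective a
      have hw' : c i x w = c j x' a := by rw [← hw]; exact hβ w
      exact (ratio_arc hS hL hw' hz hab).1.trans (ih w hw')
  exact absurd (key _ hpath u (hβ u)) (not_le.2 hs)

end Pool.Agent.J4.H79.OR
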