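import Pool.Agent.J4.H79.PG.Uniform

/-!
# Stable colourings and labelled structures
-/

set_option autoImplicit false
set_option linter.unusedSectionVars false

namespace Pool.Agent.J4.H79.OR

open Relation Pool.Agent.J4.H79.PG

/-- A colouring `c` of the pairs of the two sets `V false`, `V true` which is stable. -/
structure St (V : Bool → Type) {K : Type} (c : ∀ i, V i → V i → K) : Prop where
  eq_iff : ∀ {i j : Bool} {x y : V i} {x' y' : V j}, c i x y = c j x' y' → (x = y ↔ x' = y')
  step : ∀ {i j : Bool} {x y : V i} {x' y' : V j}, c i x y = c j x' y' →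
    ∃ β : V i ≃ V j, ∀ z, c i x z = c j x' (β z) ∧ c i z y = c j (β z) y'

variable {V : Bool → Type} {K L : Type} {c : ∀ i, V i → V i → K}

theorem St.left (hS : St V c) {i j : Bool} {x y : V i} {x' y' : V j}
    (h : c i x y = c j x' y') : c i x x = c j x' x' := by
  obtain ⟨β, hβ⟩ := hS.step h
  have h1 := (hβ x).1
  have h2 : x' = β x := (hS.eq_iff h1).1 rfl
  rw [← h2] at h1
  exact h1

theorem St.right (hS : St V c) {i j : Bool} {x y : V i} {x' y' : V j}
    (h : c i x y = c j x' y') : c i y y = c j y' y' := by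
  obtain ⟨β, hβ⟩ := hS.step h
  have h1 := (hβ y).2
  have h2 : β y = y' := (hS.eq_iff h1).1 rfl
  rw [h2] at h1
  exact h1

theorem St.row (hS : St V c) {i j : Bool} {x : V i} {x' : V j}
    (h : c i x x = c j x' x') : ∃ β : V i ≃ V j, ∀ z, c i x z = c j x' (β z) := by
  obtain ⟨β, hβ⟩ := hS.step h
  exact ⟨β, fun z => (hβ z).1⟩

/-- Restriction to subsets which are unions of classes seen from each of their points. -/
theorem St.restrict (hS : St V c) (S : ∀ i, Set (V i))
    (hP : ∀ {i j : Bool} {x y : V i} {x' y' : V j}, c i x y = c j x' y' → x ∈ S i → x' ∈ S j →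
      (y ∈ S i ↔ y' ∈ S j)) :
    St (fun i => ↥(S i)) (fun i x y => c i x.1 y.1) where
  eq_iff := by
    intro i j x y x' y' h
    rw [Subtype.ext_iff, Subtype.ext_iff]
    exact hS.eq_iff h
  step := by
    intro i j x y x' y' h
    obtain ⟨β, hβ⟩ := hS.step h
    refine ⟨β.subtypeEquiv fun z => hP (hβ z).1 x.2 x'.2, fun z => ?_⟩
    exact hβ z.1

/-- closures of invariant relations are invariant -/
theorem St.closure (hS : St V c) (A : ∀ i, V i → V i → Prop)
    (hA : ∀ {i j : Bool} {x y : V i} {x' y' : V j}, c i x y = c j x' y' → (A i x y → A j x' y'))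
    {i j : Bool} {x y : V i} {x' y' : V j} (h : c i x y = c j x' y')
    (hxy : ReflTransGen (A i) x y) : ReflTransGen (A j) x' y' := by
  revert x' y'
  induction hxy using ReflTransGen.head_induction_on with
  | refl =>
    intro x' y' h
    rw [(hS.eq_iff h).1 rfl]
  | head h1 _ ih =>
    intro x' y' h
    obtain ⟨β, hβ⟩ := hS.step h
    exact ReflTransGen.head (hA (hβ _).1 h1) (ih (hβ _).2)

/-- Labels of pairs which are seen by the colouring. -/
structure Lab (c : ∀ i, V i → V i → K) (lab : ∀ i, V i → V i → L) (τ : L → L) : Prop where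
  inv : ∀ {i j : Bool} {x y : V i} {x' y' : V j}, c i x y = c j x' y' → lab i x y = lab j x' y'
  swap : ∀ (i : Bool) (x y : V i), lab i y x = τ (lab i x y)

/-- There is an isomorphism of labelled structures which preserves the colours of the points. -/
def Isom (c : ∀ i, V i → V i → K) (lab : ∀ i, V i → V i → L) : Prop :=
  ∃ φ : V false ≃ V true, (∀ x y, lab false x y = lab true (φ x) (φ y)) ∧
    ∀ x, c false x x = c true (φ x) (φ x)

/-- The pieces of an isomorphism. -/
theorem assemble {V W α β L D : Type} (a : V → V → L) (b : W → W → L) (d : V → D) (e : W → D)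
    (f : V → α) (g : W → β) (σ : α ≃ β)
    (hiso : ∀ p, ∃ φ : {z // f z = p} ≃ {w // g w = σ p},
      (∀ x y, a x.1 y.1 = b (φ x).1 (φ y).1) ∧ ∀ x, d x.1 = e (φ x).1)
    (hcross : ∀ x y x' y', f x ≠ f y → g x' = σ (f x) → g y' = σ (f y) → a x y = b x' y') :
    ∃ φ : V ≃ W, (∀ x y, a x y = b (φ x) (φ y)) ∧ ∀ x, d x = e (φ x) := by
  classical
  choose φ hφ1 hφ2 using hiso
  have hg : ∀ x : V, g ((φ (f x)) ⟨x, rfl⟩).1 = σ (f x) := fun x => ((φ (f x)) ⟨x, rfl⟩).2
  let F : V → W := fun x => ((φ (f x)) ⟨x, rfl⟩).1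
  have hF : ∀ (p : α) (x : V) (hx : f x = p), F x = ((φ p) ⟨x, hx⟩).1 := by
    rintro _ x rfl
    rfl
  have hinj : Function.Injective F := by
    intro x y hxy
    have h1 : f x = f y := by
      apply σ.injective
      rw [← hg x, ← hg y]
      exact congrArg g hxy
    have h2 := hF (f y) x h1
    have h3 := hF (f y) y rfl
    rw [h2, h3] at hxy
    have h4 := (φ (f y)).injective (Subtype.ext hxy)
    exact congrArg Subtype.val h4
  have hsurj : Function.Surjective F := by
    intro w
    have hw : g w = σ (σ.symm (g w)) := (σ.apply_symm_apply _).symm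
    let z := (φ (σ.symm (g w))).symm ⟨w, hw⟩
    refine ⟨z.1, ?_⟩
    rw [hF _ z.1 z.2]
    exact congrArg Subtype.val ((φ (σ.symm (g w))).apply_symm_apply ⟨w, hw⟩)
  refine ⟨Equiv.ofBijective F ⟨hinj, hsurj⟩, fun x y => ?_, fun x => hφ2 (f x) ⟨x, rfl⟩⟩
  show a x y = b (F x) (F y)
  by_cases h : f x = f y
  · rw [hF (f y) x h, hF (f y) y rfl]
    exact hφ1 (f y) ⟨x, h⟩ ⟨y, rfl⟩
  · exact hcross x y (F x) (F y) h (hg x) (hg y)

section
variable [∀ i, Finite (V i)]

/-- An invariant equivalence relation. -/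
structure InvE (c : ∀ i, V i → V i → K) (E : ∀ i, Setoid (V i)) : Prop where
  iff : ∀ {i j : Bool} {x y : V i} {x' y' : V j}, c i x y = c j x' y' →
    ((E i).r x y ↔ (E j).r x' y')

/-- A bijection of the classes of the two structures with linked classes. -/
theorem exists_class_equiv (hS : St V c) {E : ∀ i, Setoid (V i)} (hE : InvE c E)
    (hlink : ∃ x x', c false x x = c true x' x') :
    ∃ σ : Quotient (E false) ≃ Quotient (E true), ∀ x : V false, ∃ x' : V true,
      c false x x = c true x' x' ∧ σ (Quotient.mk _ x) = Quotient.mk _ x' := by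
  -- the trivial graphs turn this into the statement for graphs
  have hS' : Stable V (fun _ => ⊥) c :=
    ⟨hS.eq_iff, fun _ => Iff.rfl, hS.step⟩
  obtain ⟨σ, hσ⟩ := Pool.Agent.J4.H79.PG.exists_class_equiv hS' (E := E) ⟨hE.iff⟩ hlink
  refine ⟨σ, fun x => ?_⟩
  have h1 : c false x x ∈ cols c E true (σ (Quotient.mk (E false) x)) := by
    rw [hσ]
    exact ⟨x, rfl, rfl⟩
  obtain ⟨x', h2, h3⟩ := h1
  exact ⟨x', h3.symm, h2.symm⟩

/-- The classes of linked points are isomorphic. -/
def ClassIso (c : ∀ i, V i → V i → K) (lab : ∀ i, V i → V i → L) (E : ∀ i, Setoid (V i)) : Prop :=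
  ∀ (x : V false) (x' : V true), c false x x = c true x' x' →
    ∃ φ : {z // (E false).r x z} ≃ {z // (E true).r x' z},
      (∀ p q, lab false p.1 q.1 = lab true (φ p).1 (φ q).1) ∧
      ∀ p, c false p.1 p.1 = c true (φ p).1 (φ p).1

/-- A bijection of the classes with linked classes, under which the labels of pairs in different
classes are preserved, gives an isomorphism. -/
theorem isom_of_classes {lab : ∀ i, V i → V i → L} {E : ∀ i, Setoid (V i)}
    (σ : Quotient (E false) ≃ Quotient (E true))
    (hσ : ∀ x : V false, ∃ x' : V true,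
      c false x x = c true x' x' ∧ σ (Quotient.mk _ x) = Quotient.mk _ x')
    (ih : ClassIso c lab E)
    (hcross : ∀ x y x' y', ¬ (E false).r x y → Quotient.mk (E true) x' = σ (Quotient.mk _ x) →
      Quotient.mk (E true) y' = σ (Quotient.mk _ y) → lab false x y = lab true x' y') :
    Isom c lab := by
  refine assemble (lab false) (lab true) (fun x => c false x x) (fun x => c true x x)
    (Quotient.mk (E false)) (Quotient.mk (E true)) σ ?_ ?_
  · intro q
    induction q using Quotient.inductionOn with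
    | _ x =>
      obtain ⟨x', h1, h2⟩ := hσ x
      obtain ⟨φ, h3, h4⟩ := ih x x' h1
      rw [h2]
      have e1 : ∀ z, Quotient.mk (E false) z = Quotient.mk (E false) x ↔ (E false).r x z := fun z =>
        ⟨fun h => (E false).symm (Quotient.exact h), fun h => Quotient.sound ((E false).symm h)⟩
      have e2 : ∀ z, Quotient.mk (E true) z = Quotient.mk (E true) x' ↔ (E true).r x' z := fun z =>
        ⟨fun h => (E true).symm (Quotient.exact h), fun h => Quotient.sound ((E true).symm h)⟩
      refine ⟨(Equiv.subtypeEquivRight e1).trans (φ.trans (Equiv.subtypeEquivRight e2).symm),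
        fun p q => ?_, fun p => ?_⟩
      · exact h3 ⟨p.1, (e1 _).1 p.2⟩ ⟨q.1, (e1 _).1 q.2⟩
      · exact h4 ⟨p.1, (e1 _).1 p.2⟩
  · intro x y x' y' h1 h2 h3
    exact hcross x y x' y' (fun h => h1 (Quotient.sound h)) h2 h3

/-- **Constant labels between the classes.** -/
theorem uniform (hS : St V c) {lab : ∀ i, V i → V i → L} {E : ∀ i, Setoid (V i)} (hE : InvE c E)
    (hlink : ∃ x x', c false x x = c true x' x') (l : L)
    (hb : ∀ (i : Bool) (x y : V i), ¬ (E i).r x y → lab i x y = l) (ih : ClassIso c lab E) :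
    Isom c lab := by
  obtain ⟨σ, hσ⟩ := exists_class_equiv hS hE hlink
  refine isom_of_classes σ hσ ih ?_
  intro x y x' y' h1 h2 h3
  rw [hb false x y h1, hb true x' y' fun h => h1 ?_]
  apply Quotient.exact
  apply σ.injective
  rw [← h2, ← h3]
  exact Quotient.sound h

end

end Pool.Agent.J4.H79.OR
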