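import Pool.Agent.J4.H79.OR.Induct

/-!
# Two-dimensional quasi-orders: row separation
-/

set_option autoImplicit false
set_option linter.unusedSectionVars false

namespace Pool.Agent.J4.H79.OR

open Relation Finset

/-- The labels of a relation. -/
def leLab {V : Type} (le : V → V → Prop) (x y : V) : Prop × Prop := (le x y, le y x)

/-- A relation which is the intersection of two linear quasi-orders, given by functions into a
linear order; stated for the labels. -/
def TwoDim (V : Type) (lab : V → V → Prop × Prop) : Prop :=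
  ∃ (T : Type) (_ : LinearOrder T) (f g : V → T), ∀ x y,
    lab x y = ((f x ≤ f y ∧ g x ≤ g y), (f y ≤ f x ∧ g y ≤ g x))

theorem TwoDim.sub (V : Type) (lab : V → V → Prop × Prop) (S : Set V) (h : TwoDim V lab) :
    TwoDim ↥S (fun x y => lab x.1 y.1) := by
  obtain ⟨T, _, f, g, h⟩ := h
  exact ⟨T, inferInstance, fun x => f x.1, fun x => g x.1, fun x y => h x.1 y.1⟩

section
variable {V T : Type} [LinearOrder T]

/-- the two functions -/
def fn (f g : V → T) (b : Bool) : V → T := if b then f else g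

/-- the four strict quasi-orders -/
def RR (f g : V → T) (b s : Bool) (x y : V) : Prop :=
  if s then fn f g b x < fn f g b y else fn f g b y < fn f g b x

theorem RR_flip (f g : V → T) (b s : Bool) (x y : V) : RR f g b (!s) x y ↔ RR f g b s y x := by
  cases s <;> exact Iff.rfl

theorem RR_neg (f g : V → T) (b s : Bool) (x y z : V) (h : RR f g b s x y) :
    RR f g b s x z ∨ RR f g b s z y := by
  cases s
  · change fn f g b y < fn f g b x at h
    change fn f g b z < fn f g b x ∨ fn f g b y < fn f g b z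
    rcases lt_or_ge (fn f g b z) (fn f g b x) with h1 | h1
    · exact Or.inl h1
    · exact Or.inr (lt_of_lt_of_le h h1)
  · change fn f g b x < fn f g b y at h
    change fn f g b x < fn f g b z ∨ fn f g b z < fn f g b y
    rcases lt_or_ge (fn f g b x) (fn f g b z) with h1 | h1
    · exact Or.inl h1
    · exact Or.inr (lt_of_le_of_lt h1 h)

/-- the labels of points which are separated by one of the functions -/
theorem lab_of_RR {lab : V → V → Prop × Prop} {f g : V → T}
    (h : ∀ x y, lab x y = ((f x ≤ f y ∧ g x ≤ g y), (f y ≤ f x ∧ g y ≤ g x)))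
    {b s : Bool} {x y : V} (hR : RR f g b s x y) :
    lab y x = if s then (False, ¬ RR f g (!b) s y x) else (¬ RR f g (!b) s y x, False) := by
  rw [h]
  cases b <;> cases s
  · -- `g y < g x`
    have h1 : g y < g x := hR
    have h2 : RR f g (!false) false y x ↔ f x < f y := Iff.rfl
    simp only [h2, not_lt]
    refine Prod.ext (propext ⟨fun h => h.1, fun h => ⟨h, h1.le⟩⟩) (propext ⟨fun h => ?_, False.elim⟩)
    exact absurd h1 (not_lt.2 h.2)
  · have h1 : g x < g y := hR
    have h2 : RR f g (!false) true y x ↔ f y < f x := Iff.rfl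
    simp only [h2, not_lt]
    refine Prod.ext (propext ⟨fun h => ?_, False.elim⟩) (propext ⟨fun h => h.1, fun h => ⟨h, h1.le⟩⟩)
    exact absurd h1 (not_lt.2 h.2)
  · have h1 : f y < f x := hR
    have h2 : RR f g (!true) false y x ↔ g x < g y := Iff.rfl
    simp only [h2, not_lt]
    refine Prod.ext (propext ⟨fun h => h.2, fun h => ⟨h1.le, h⟩⟩) (propext ⟨fun h => ?_, False.elim⟩)
    exact absurd h1 (not_lt.2 h.1)
  · have h1 : f x < f y := hR
    have h2 : RR f g (!true) true y x ↔ g y < g x := Iff.rfl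
    simp only [h2, not_lt]
    refine Prod.ext (propext ⟨fun h => ?_, False.elim⟩) (propext ⟨fun h => h.2, fun h => ⟨h1.le, h⟩⟩)
    exact absurd h1 (not_lt.2 h.1)

end

section
variable {V T : Type} [Fintype V] [LinearOrder T] {K : Type} {c : V → V → K}
  {lab : V → V → Prop × Prop} {f g : V → T} {v : V}

/-- The partitions that are considered. -/
structure Good (c : V → V → K) (f g : V → T) (v : V) (E : Setoid V) : Prop where
  nontriv : ∃ x y, ¬ E.r x y
  sep : ∀ x y, ¬ E.r x y → ∃ b s, ∀ a d, E.r x a → E.r y d → RR f g b s a d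
  col : ∀ x y, c v x = c v y → E.r x y

/-- In a minimal good partition all classes are modules. -/
theorem Good.isMod (h : ∀ x y, lab x y = ((f x ≤ f y ∧ g x ≤ g y), (f y ≤ f x ∧ g y ≤ g x)))
    (hstep : ∀ x y, c v x = c v y → ∃ β : V ≃ V, ∀ z, c v z = c v (β z) ∧
      lab z x = lab (β z) y) {E : Setoid V} (hE : Good c f g v E)
    (hmin : ∀ E' : Setoid V, Good c f g v E' → (∀ x y, E'.r x y → E.r x y) →
      ∀ x y, E.r x y → E'.r x y) {x y z : V} (hxy : E.r x y) (hxz : ¬ E.r x z) :
    lab z x = lab z y := by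
  classical
  obtain ⟨b, s, hbs⟩ := hE.sep x z hxz
  let N : V → Finset V := fun a => univ.filter fun d => E.r z d ∧ lab d a ≠ (False, False)
  have hN : ∀ a d, E.r x a → E.r z d → (lab d a ≠ (False, False) ↔ ¬ RR f g (!b) s d a) := by
    intro a d ha hd
    rw [lab_of_RR h (hbs a d ha hd)]
    by_cases h1 : RR f g (!b) s d a
    · cases s <;> simp [h1]
    · cases s <;> simp [h1]
  have nest : ∀ a a', E.r x a → E.r x a' → ¬ RR f g (!b) s a' a → N a' ⊆ N a := by
    intro a a' ha ha' haa d hd
    rw [mem_filter] at hd ⊢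
    refine ⟨mem_univ _, hd.2.1, ?_⟩
    rw [hN a d ha hd.2.1]
    intro hR
    rcases RR_neg f g (!b) s d a a' hR with h1 | h1
    · exact (hN a' d ha' hd.2.1).1 hd.2.2 h1
    · exact haa h1
  have lt_of : ∀ a a', E.r x a → E.r x a' → (N a).card < (N a').card → RR f g (!b) s a' a := by
    intro a a' ha ha' hlt
    by_contra hc
    exact absurd (Finset.card_le_card (nest a a' ha ha' hc)) (not_le.2 hlt)
  let E' : Setoid V :=
    { r := fun p q => E.r p q ∧ (E.r x p → (N p).card = (N q).card)
      iseqv := by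
        refine ⟨fun p => ⟨E.refl p, fun _ => rfl⟩, fun {p q} h => ⟨E.symm h.1, fun h' => ?_⟩,
          fun {p q w} h h' => ⟨E.trans h.1 h'.1, fun h'' => ?_⟩⟩
        · exact (h.2 (E.trans h' (E.symm h.1))).symm
        · exact (h.2 h'').trans (h'.2 (E.trans h'' h.1)) }
  have hE' : Good c f g v E' := by
    refine ⟨?_, fun p q hpq => ?_, fun p q hpq => ?_⟩
    · obtain ⟨p, q, hpq⟩ := hE.nontriv
      exact ⟨p, q, fun h => hpq h.1⟩
    · by_cases h1 : E.r p q
      · have h2 : E.r x p ∧ (N p).card ≠ (N q).card := by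
          by_contra h2
          rw [not_and, not_not] at h2
          exact hpq ⟨h1, h2⟩
        have h3 : E.r x q := E.trans h2.1 h1
        rcases lt_or_gt_of_ne h2.2 with h4 | h4
        · refine ⟨!b, !s, fun a d ha hd => ?_⟩
          rw [RR_flip]
          refine lt_of a d (E.trans h2.1 ha.1) (E.trans h3 hd.1) ?_
          rw [← ha.2 h2.1, ← hd.2 h3]
          exact h4
        · refine ⟨!b, s, fun a d ha hd => ?_⟩
          refine lt_of d a (E.trans h3 hd.1) (E.trans h2.1 ha.1) ?_
          rw [← ha.2 h2.1, ← hd.2 h3]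
          exact h4
      · obtain ⟨b', s', h2⟩ := hE.sep p q h1
        exact ⟨b', s', fun a d ha hd => h2 a d ha.1 hd.1⟩
    · refine ⟨hE.col p q hpq, fun _ => ?_⟩
      obtain ⟨β, hβ⟩ := hstep p q hpq
      refine Finset.card_bij (fun d _ => β d) ?_ (fun a _ b _ hab => β.injective hab) ?_
      · intro d hd
        rw [mem_filter] at hd ⊢
        refine ⟨mem_univ _, E.trans hd.2.1 (hE.col _ _ (hβ d).1), ?_⟩
        rw [← (hβ d).2]
        exact hd.2.2
      · intro d hd
        rw [mem_filter] at hd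
        obtain ⟨w, rfl⟩ := β.surjective d
        refine ⟨w, ?_, rfl⟩
        rw [mem_filter]
        refine ⟨mem_univ _, E.trans hd.2.1 (E.symm (hE.col _ _ (hβ w).1)), ?_⟩
        rw [(hβ w).2]
        exact hd.2.2
  have hcard : ∀ a, E.r x a → (N x).card = (N a).card := fun a ha =>
    (hmin E' hE' (fun p q h => h.1) x a ha).2 (E.refl x)
  have heq : N x = N y := by
    by_cases h1 : RR f g (!b) s y x
    · have h2 : ¬ RR f g (!b) s x y := by
        intro h3
        cases s
        · exact lt_asymm (show fn f g (!b) x < fn f g (!b) y from h1) h3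
        · exact lt_asymm (show fn f g (!b) y < fn f g (!b) x from h1) h3
      exact Finset.eq_of_subset_of_card_le (nest y x hxy (E.refl x) h2) (hcard y hxy).ge
    · exact (Finset.eq_of_subset_of_card_le (nest x y (E.refl x) hxy h1) (hcard y hxy).le).symm
  have hz : ∀ a, z ∈ N a ↔ lab z a ≠ (False, False) := by
    intro a
    rw [mem_filter]
    exact ⟨fun h => h.2.2, fun h => ⟨mem_univ _, E.refl z, h⟩⟩
  have key : RR f g (!b) s z x ↔ RR f g (!b) s z y := by
    have e1 := hN x z (E.refl x) (E.refl z)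
    have e2 := hN y z hxy (E.refl z)
    have e3 : lab z x ≠ (False, False) ↔ lab z y ≠ (False, False) := by
      rw [← hz x, ← hz y, heq]
    rw [e1, e2] at e3
    exact not_iff_not.1 e3
  rw [lab_of_RR h (hbs x z (E.refl x) (E.refl z)), lab_of_RR h (hbs y z hxy (E.refl z))]
  simp only [key]

/-- **Row separation.** -/
theorem row_sep [Nontrivial V] (h : ∀ x y, lab x y = ((f x ≤ f y ∧ g x ≤ g y), (f y ≤ f x ∧ g y ≤ g x)))
    (hlab : ∀ x y z w, c x y = c z w → lab x y = lab z w)
    (hstep : ∀ x y, c v x = c v y → ∃ β : V ≃ V, ∀ z, c v z = c v (β z) ∧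
      lab z x = lab (β z) y) (hv : ∀ x, f v ≤ f x) (hex : ∃ u, ¬ g v ≤ g u) {x y : V}
    (hxy : c v x = c v y) : Md lab x y := by
  classical
  -- the initial partition
  let E0 : Setoid V :=
    { r := fun p q => (g v ≤ g p ↔ g v ≤ g q)
      iseqv := ⟨fun p => Iff.rfl, fun h => h.symm, fun h h' => h.trans h'⟩ }
  have hE0 : Good c f g v E0 := by
    refine ⟨?_, fun p q hpq => ?_, fun p q hpq => ?_⟩
    · obtain ⟨u, hu⟩ := hex
      exact ⟨v, u, fun h : (g v ≤ g v ↔ g v ≤ g u) => hu (h.1 le_rfl)⟩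
    · have hpq' : ¬ (g v ≤ g p ↔ g v ≤ g q) := hpq
      by_cases hp : g v ≤ g p
      · have hq : ¬ g v ≤ g q := fun h => hpq' ⟨fun _ => h, fun _ => hp⟩
        refine ⟨false, false, fun a d ha hd => ?_⟩
        have ha' : (g v ≤ g p ↔ g v ≤ g a) := ha
        have hd' : (g v ≤ g q ↔ g v ≤ g d) := hd
        show g d < g a
        exact lt_of_lt_of_le (not_le.1 fun h => hq (hd'.2 h)) (ha'.1 hp)
      · have hq : g v ≤ g q := by
          by_contra h
          exact hpq' ⟨fun h' => absurd h' hp, fun h' => absurd h' h⟩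
        refine ⟨false, true, fun a d ha hd => ?_⟩
        have ha' : (g v ≤ g p ↔ g v ≤ g a) := ha
        have hd' : (g v ≤ g q ↔ g v ≤ g d) := hd
        show g a < g d
        exact lt_of_lt_of_le (not_le.1 fun h => hp (ha'.2 h)) (hd'.1 hq)
    · show g v ≤ g p ↔ g v ≤ g q
      have h1 := congrArg Prod.fst (hlab v p v q hpq)
      rw [h v p, h v q] at h1
      have h2 : (f v ≤ f p ∧ g v ≤ g p) = (f v ≤ f q ∧ g v ≤ g q) := h1
      have h3 := iff_of_eq h2
      exact ⟨fun h => (h3.1 ⟨hv p, h⟩).2, fun h => (h3.2 ⟨hv q, h⟩).2⟩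
  -- a minimal partition
  let μ : Setoid V → ℕ := fun E => ((univ : Finset (V × V)).filter fun p => E.r p.1 p.2).card
  have hex : ∃ n, ∃ E : Setoid V, Good c f g v E ∧ μ E = n := ⟨_, E0, hE0, rfl⟩
  obtain ⟨E, hE, hμ⟩ := Nat.find_spec hex
  have hmin : ∀ E' : Setoid V, Good c f g v E' → (∀ x y, E'.r x y → E.r x y) →
      ∀ x y, E.r x y → E'.r x y := by
    intro E' hE' hle a d had
    by_contra hc
    have h1 : μ E' < μ E := by
      refine Finset.card_lt_card ⟨fun p hp => ?_, fun hs => ?_⟩
      · rw [mem_filter] at hp ⊢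
        exact ⟨hp.1, hle _ _ hp.2⟩
      · have h2 : ((a, d) : V × V) ∈ (univ : Finset (V × V)).filter fun p => E.r p.1 p.2 := by
          rw [mem_filter]
          exact ⟨mem_univ _, had⟩
        have h3 := hs h2
        rw [mem_filter] at h3
        exact hc h3.2
    rw [hμ] at h1
    exact Nat.find_min hex h1 ⟨E', hE', rfl⟩
  refine ⟨{a | E.r x a}, ?_, ?_, E.refl x, hE.col x y hxy⟩
  · intro a ha d hd z hz
    have hz' : ¬ E.r a z := fun h => hz (E.trans ha h)
    exact hE.isMod h hstep hmin (E.trans (E.symm ha) hd) hz'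
  · intro hu
    obtain ⟨p, q, hpq⟩ := hE.nontriv
    have h1 : p ∈ {a | E.r x a} := by rw [hu]; trivial
    have h2 : q ∈ {a | E.r x a} := by rw [hu]; trivial
    exact hpq (E.trans (E.symm h1) h2)

end

/-- Row separation for two-dimensional quasi-orders. -/
theorem twoDim_sep (V : Type) [Fintype V] (K : Type) (c : V → V → K) (lab : V → V → Prop × Prop)
    (hP : TwoDim V lab) (hall : ∀ l x y, ReflTransGen (AL lab l) x y) (hnt : Nontrivial V)
    (_ : ∀ x y, lab y x = Prod.swap (lab x y))
    (hstep : ∀ v x y, c v x = c v y → ∃ β : V ≃ V, ∀ z, c v z = c v (β z) ∧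
      lab z x = lab (β z) y)
    (hlab : ∀ x y z w, c x y = c z w → lab x y = lab z w) :
    ∃ v, ∀ x y, c v x = c v y → Md lab x y := by
  obtain ⟨T, _, f, g, h⟩ := hP
  obtain ⟨v, hv⟩ := Finite.exists_min f
  refine ⟨v, fun x y hxy => row_sep h hlab (hstep v) hv ?_ hxy⟩
  by_contra hc
  push Not at hc
  -- `v` is a least element
  have hle : ∀ u, f v ≤ f u ∧ g v ≤ g u := fun u => ⟨hv u, hc u⟩
  have h1 : ∀ m ∈ {m | f m ≤ f v ∧ g m ≤ g v}, ∀ u, u ∉ {m | f m ≤ f v ∧ g m ≤ g v} →
      lab u m = (False, True) := by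
    intro m hm u hu
    have hm' : f m ≤ f v ∧ g m ≤ g v := hm
    have hu' : ¬ (f u ≤ f v ∧ g u ≤ g v) := hu
    rw [h]
    refine Prod.ext (propext ⟨fun h2 => hu' ?_, False.elim⟩) (propext ⟨fun _ => trivial, fun _ => ?_⟩)
    · exact ⟨h2.1.trans hm'.1, h2.2.trans hm'.2⟩
    · exact ⟨hm'.1.trans (hle u).1, hm'.2.trans (hle u).2⟩
  have h2 : ∀ u, f u ≤ f v ∧ g u ≤ g v := by
    intro u
    by_contra hu
    exact not_reach h1 (x := u) (y := v) hu ⟨le_rfl, le_rfl⟩ (hall _ u v)
  have h3 : ∀ x y, lab x y = (True, True) := by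
    intro x y
    rw [h]
    refine Prod.ext (propext ⟨fun _ => trivial, fun _ => ?_⟩) (propext ⟨fun _ => trivial, fun _ => ?_⟩)
    · exact ⟨(h2 x).1.trans (hle y).1, (h2 x).2.trans (hle y).2⟩
    · exact ⟨(h2 y).1.trans (hle x).1, (h2 y).2.trans (hle x).2⟩
  obtain ⟨a, b, hab⟩ := hnt.exists_pair_ne
  exact not_reach (lab := lab) (M := {b}) (l := (True, True)) (fun m _ u _ => h3 u m)
    (x := a) (y := b) hab rfl (hall _ a b)

/-- **Two-dimensional quasi-orders are identified.** -/
theorem isom_of_twoDim {V : Bool → Type} [∀ i, Fintype (V i)] {K : Type}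
    {c : ∀ i, V i → V i → K} {lab : ∀ i, V i → V i → Prop × Prop} (hS : St V c)
    (hL : Lab c lab Prod.swap) (hP : TwoDim (V false) (lab false))
    (hlink : ∃ x x', c false x x = c true x' x') : Isom c lab :=
  induct TwoDim TwoDim.sub twoDim_sep (Nat.card (V false)) V c lab hS hL le_rfl hP hlink

end Pool.Agent.J4.H79.OR
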